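import Pool.Agent.H.MP_c90f74_nt.SF.Defs

/-!
# MonB: from `q` to `p q`

PROOF. `(u, v) ↦ (u p + v q) % (p q)` maps the pairs (`u < q` prime to `q`, `1 ≤ v < p`) injectively to the numbers `< p q` prime to `p q`
(modulo `q` it is `u p`, modulo `p` it is `v q`), and `(u p + v q) / (p q) = u/q + v/p`; `ee` has period `1` and `n` is an integer, so the terms agree. All terms are
nonnegative, so the injection gives `≤` (`Finset.sum_le_sum_of_injOn` or `sum_image` and `sum_le_sum_of_subset_of_nonneg`, over `product`).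
-/

set_option autoImplicit false

namespace Pool.Agent.H.MP_c90f74_nt.SF

open Finset

private theorem MonB_cop {p q u v : ℕ} (hp : p.Prime) (hpq : ¬ p ∣ q) (hv : v ∈ Ico 1 p)
    (hu : Nat.Coprime u q) : Nat.Coprime ((u * p + v * q) % (p * q)) (p * q) := by
  rw [mem_Ico] at hv
  have hpq' : Nat.Coprime p q := (Nat.Prime.coprime_iff_not_dvd hp).2 hpq
  have hpv : Nat.Coprime p v := (Nat.Prime.coprime_iff_not_dvd hp).2 fun h => by
    have := Nat.le_of_dvd (by omega) h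
    omega
  have h1 : Nat.Coprime (u * p + v * q) p := by
    rw [Nat.coprime_iff_gcd_eq_one, add_comm, Nat.gcd_add_mul_right_left]
    exact Nat.Coprime.mul_left hpv.symm hpq'.symm
  have h2 : Nat.Coprime (u * p + v * q) q := by
    rw [Nat.coprime_iff_gcd_eq_one, Nat.gcd_add_mul_right_left]
    exact Nat.Coprime.mul_left hu hpq'
  have h3 : Nat.Coprime (u * p + v * q) (p * q) := Nat.Coprime.mul_right h1 h2
  have h4 : Nat.gcd ((u * p + v * q) % (p * q)) (p * q) = Nat.gcd (u * p + v * q) (p * q) :=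
    (Nat.mod_modEq _ _).gcd_eq
  exact h4.trans h3

private theorem MonB_inj {p q u v u' v' : ℕ} (hp : p.Prime) (hpq : ¬ p ∣ q) (hv : v ∈ Ico 1 p)
    (hv' : v' ∈ Ico 1 p) (hu : u < q) (hu' : u' < q)
    (h : (u * p + v * q) % (p * q) = (u' * p + v' * q) % (p * q)) : v = v' ∧ u = u' := by
  rw [mem_Ico] at hv hv'
  have hpq' : Nat.Coprime p q := (Nat.Prime.coprime_iff_not_dvd hp).2 hpq
  have h0 : u * p + v * q ≡ u' * p + v' * q [MOD p * q] := h
  constructor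
  · have h1 : u * p + v * q ≡ u' * p + v' * q [MOD p] := h0.of_mul_right q
    have h2 : v * q ≡ v' * q [MOD p] := by
      have e1 : u * p + v * q ≡ v * q [MOD p] := by
        rw [Nat.ModEq, Nat.add_mod, Nat.mul_mod_left, zero_add, Nat.mod_mod]
      have e2 : u' * p + v' * q ≡ v' * q [MOD p] := by
        rw [Nat.ModEq, Nat.add_mod, Nat.mul_mod_left, zero_add, Nat.mod_mod]
      exact e1.symm.trans (h1.trans e2)
    have h3 : v ≡ v' [MOD p] := Nat.ModEq.cancel_right_of_coprime hpq' h2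
    exact Nat.ModEq.eq_of_lt_of_lt h3 hv.2 hv'.2
  · have h1 : u * p + v * q ≡ u' * p + v' * q [MOD q] := h0.of_mul_left p
    have h2 : u * p ≡ u' * p [MOD q] := by
      have e1 : u * p + v * q ≡ u * p [MOD q] := by
        rw [Nat.ModEq, Nat.add_mod, Nat.mul_mod_left, add_zero, Nat.mod_mod]
      have e2 : u' * p + v' * q ≡ u' * p [MOD q] := by
        rw [Nat.ModEq, Nat.add_mod, Nat.mul_mod_left, add_zero, Nat.mod_mod]
      exact e1.symm.trans (h1.trans e2)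
    have h3 : u ≡ u' [MOD q] := Nat.ModEq.cancel_right_of_coprime hpq'.symm h2
    exact Nat.ModEq.eq_of_lt_of_lt h3 hu hu'

private theorem MonB_val {p q : ℕ} (hp : p.Prime) (hq : 1 ≤ q) (u v n : ℕ) (β : ℝ) :
    MP_711652_nt.CH.ee ((n : ℝ) * ((u : ℝ) / q + ((v : ℝ) / p + β))) =
      MP_711652_nt.CH.ee ((n : ℝ) * ((((u * p + v * q) % (p * q) : ℕ) : ℝ) / ((p * q : ℕ) : ℝ) + β)) := by
  have hp0 : (p : ℝ) ≠ 0 := by exact_mod_cast hp.ne_zero
  have hq0 : (q : ℝ) ≠ 0 := by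
    have : q ≠ 0 := by omega
    exact_mod_cast this
  have h1 : ((u * p + v * q : ℕ) : ℝ) = (((u * p + v * q) % (p * q) : ℕ) : ℝ) +
      ((p * q : ℕ) : ℝ) * (((u * p + v * q) / (p * q) : ℕ) : ℝ) := by
    rw [← Nat.cast_mul, ← Nat.cast_add, Nat.mod_add_div]
  have h2 : (n : ℝ) * ((u : ℝ) / q + ((v : ℝ) / p + β)) =
      (n : ℝ) * ((((u * p + v * q) % (p * q) : ℕ) : ℝ) / ((p * q : ℕ) : ℝ) + β) +
        ((n * ((u * p + v * q) / (p * q)) : ℕ) : ℝ) := by
    have h3 : (u : ℝ) / q + (v : ℝ) / p = ((u * p + v * q : ℕ) : ℝ) / ((p * q : ℕ) : ℝ) := by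
      push_cast
      field_simp
    have h4 : ((p * q : ℕ) : ℝ) ≠ 0 := by
      push_cast
      exact mul_ne_zero hp0 hq0
    rw [← add_assoc, h3, h1, Nat.cast_mul n]
    field_simp
    ring
  rw [h2]
  unfold MP_711652_nt.CH.ee
  generalize n * ((u * p + v * q) / (p * q)) = N
  have h5 : ∀ x : ℝ, (2 * Real.pi * ((x + (N : ℝ) : ℝ) : ℂ) * Complex.I : ℂ) =
      2 * Real.pi * (x : ℂ) * Complex.I + N * (2 * Real.pi * Complex.I) := by
    intro x
    push_cast
    ring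
  rw [h5, Complex.exp_add, Complex.exp_nat_mul_two_pi_mul_I, mul_one]

theorem mon_step (Z : Finset ℕ) (p q : ℕ) (hp : p.Prime) (hq : 1 ≤ q) (hpq : ¬ p ∣ q) (β : ℝ) :
    ∑ v ∈ Ico 1 p, FF Z q ((v : ℝ) / p + β) ≤ FF Z (p * q) β := by
  obtain ⟨G, hG⟩ : ∃ G : ℕ → ℝ, G = fun w : ℕ => ‖∑ n ∈ Z, MP_711652_nt.CH.ee ((n : ℝ) *
      ((w : ℝ) / ((p * q : ℕ) : ℝ) + β))‖ ^ 2 := ⟨_, rfl⟩
  have hG0 : ∀ w, 0 ≤ G w := fun w => by
    rw [hG]
    positivity
  have hR : FF Z (p * q) β = ∑ w ∈ (range (p * q)).filter (fun w => Nat.Coprime w (p * q)), G w := by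
    rw [hG]
    rfl
  have hL : ∑ v ∈ Ico 1 p, FF Z q ((v : ℝ) / p + β) =
      ∑ x ∈ Ico 1 p ×ˢ (range q).filter (fun u => Nat.Coprime u q),
        G ((x.2 * p + x.1 * q) % (p * q)) := by
    rw [sum_product]
    refine sum_congr rfl fun v _ => ?_
    unfold FF
    refine sum_congr rfl fun u _ => ?_
    rw [hG]
    dsimp only
    congr 2
    exact sum_congr rfl fun n _ => MonB_val hp hq u v n β
  have hinj : Set.InjOn (fun x : ℕ × ℕ => (x.2 * p + x.1 * q) % (p * q))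
      ((Ico 1 p ×ˢ (range q).filter (fun u => Nat.Coprime u q) : Finset (ℕ × ℕ)) : Set (ℕ × ℕ)) := by
    rintro ⟨v, u⟩ hx ⟨v', u'⟩ hx' h
    rw [mem_coe, mem_product, mem_filter, mem_range] at hx hx'
    obtain ⟨h1, h2⟩ := MonB_inj hp hpq hx.1 hx'.1 hx.2.1 hx'.2.1 h
    exact Prod.ext h1 h2
  rw [hL, hR, ← sum_image (f := G) hinj]
  refine sum_le_sum_of_subset_of_nonneg ?_ fun w _ _ => hG0 w
  intro w hw
  obtain ⟨⟨v, u⟩, hx, rfl⟩ := mem_image.1 hw
  rw [mem_product, mem_filter, mem_range] at hx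
  rw [mem_filter, mem_range]
  exact ⟨Nat.mod_lt _ (Nat.mul_pos hp.pos (by omega)), MonB_cop hp hpq hx.1 hx.2.2⟩

end Pool.Agent.H.MP_c90f74_nt.SF
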