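import Pool.Agent.H.MP_c90f74_nt.SF.MonA
import Pool.Agent.H.MP_c90f74_nt.SF.MonB
import Pool.Agent.H.MP_711652_nt.CH.LsAdd

/-!
# MonE: Montgomery's sieve for a family of sets of primes, with a number of classes depending on the prime
-/

set_option autoImplicit false

namespace Pool.Agent.H.MP_c90f74_nt.SF

open Finset

theorem mon_prod_gen (Z : Finset ℕ) (r : ℕ → ℕ) (T : Finset ℕ)
    (hT : ∀ p ∈ T, p.Prime ∧ r p < p ∧ (Z.image (fun n => n % p)).card + r p ≤ p) (β : ℝ) :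
    (∏ p ∈ T, (r p : ℝ) / ((p : ℝ) - r p)) * ‖∑ n ∈ Z, MP_711652_nt.CH.ee ((n : ℝ) * β)‖ ^ 2 ≤
      FF Z (∏ p ∈ T, p) β := by
  classical
  induction T using Finset.induction_on generalizing β with
  | empty =>
    have h1 : (range 1).filter (fun u => Nat.Coprime u 1) = {0} := by
      ext u
      simp
    rw [Finset.prod_empty, Finset.prod_empty, one_mul]
    unfold FF
    rw [h1, Finset.sum_singleton, Nat.cast_zero, zero_div, zero_add]
  | insert p T hp ih =>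
    obtain ⟨hpp, hrp, hcard⟩ := hT p (Finset.mem_insert_self p T)
    have hT' : ∀ q ∈ T, q.Prime ∧ r q < q ∧ (Z.image (fun n => n % q)).card + r q ≤ q :=
      fun q hq => hT q (Finset.mem_insert_of_mem hq)
    have hq1 : 1 ≤ ∏ q ∈ T, q :=
      Finset.prod_pos (fun q hq => (hT' q hq).1.pos)
    have hnd : ¬ p ∣ ∏ q ∈ T, q := by
      intro h
      obtain ⟨a, ha, hpa⟩ := (Prime.dvd_finsetProd_iff hpp.prime (fun q => q)).1 h
      have h1 := (Nat.prime_dvd_prime_iff_eq hpp (hT' a ha).1).1 hpa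
      rw [h1] at hp
      exact hp ha
    have hw : 0 ≤ ∏ q ∈ T, (r q : ℝ) / ((q : ℝ) - r q) := by
      refine Finset.prod_nonneg fun q hq => ?_
      have h1 : (r q : ℝ) < q := by exact_mod_cast (hT' q hq).2.1
      exact div_nonneg (Nat.cast_nonneg _) (by linarith)
    have hrp' : (0 : ℝ) < (p : ℝ) - r p := by
      have h1 : (r p : ℝ) < p := by exact_mod_cast hrp
      linarith
    have h1 := mon_prime Z p (r p) hpp hcard β
    have h2 : (r p : ℝ) / ((p : ℝ) - r p) * ‖∑ n ∈ Z, MP_711652_nt.CH.ee ((n : ℝ) * β)‖ ^ 2 ≤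
        ∑ v ∈ Ico 1 p, ‖∑ n ∈ Z, MP_711652_nt.CH.ee ((n : ℝ) * ((v : ℝ) / p + β))‖ ^ 2 := by
      rw [div_mul_eq_mul_div, div_le_iff₀ hrp', mul_comm _ ((p : ℝ) - r p)]
      exact h1
    have h3 : (∏ q ∈ T, (r q : ℝ) / ((q : ℝ) - r q)) *
        ∑ v ∈ Ico 1 p, ‖∑ n ∈ Z, MP_711652_nt.CH.ee ((n : ℝ) * ((v : ℝ) / p + β))‖ ^ 2 ≤
        ∑ v ∈ Ico 1 p, FF Z (∏ q ∈ T, q) ((v : ℝ) / p + β) := by
      rw [Finset.mul_sum]
      exact Finset.sum_le_sum fun v _ => ih hT' ((v : ℝ) / p + β)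
    rw [Finset.prod_insert hp, Finset.prod_insert hp]
    calc (r p : ℝ) / ((p : ℝ) - r p) * (∏ q ∈ T, (r q : ℝ) / ((q : ℝ) - r q)) *
          ‖∑ n ∈ Z, MP_711652_nt.CH.ee ((n : ℝ) * β)‖ ^ 2 =
        (∏ q ∈ T, (r q : ℝ) / ((q : ℝ) - r q)) *
          ((r p : ℝ) / ((p : ℝ) - r p) * ‖∑ n ∈ Z, MP_711652_nt.CH.ee ((n : ℝ) * β)‖ ^ 2) := by ring
      _ ≤ (∏ q ∈ T, (r q : ℝ) / ((q : ℝ) - r q)) *
          ∑ v ∈ Ico 1 p, ‖∑ n ∈ Z, MP_711652_nt.CH.ee ((n : ℝ) * ((v : ℝ) / p + β))‖ ^ 2 :=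
        mul_le_mul_of_nonneg_left h2 hw
      _ ≤ ∑ v ∈ Ico 1 p, FF Z (∏ q ∈ T, q) ((v : ℝ) / p + β) := h3
      _ ≤ FF Z (p * ∏ q ∈ T, q) β := mon_step Z p _ hpp hq1 hnd β

private theorem MonE_farey {Q : ℕ} {q : ℕ} (hq1 : 1 ≤ q) (hqQ : q ≤ Q) (G : ℕ × ℕ → ℝ) :
    ∑ u ∈ (range q).filter (fun u => Nat.Coprime u q), G (q, u) =
      ∑ w ∈ (MP_711652_nt.CH.farey Q).filter (fun w => w.1 = q), G w := by
  refine Finset.sum_nbij' (fun u => (q, u)) (fun w => w.2) ?_ ?_ ?_ ?_ ?_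
  · intro u hu
    rw [mem_filter, mem_range] at hu
    rw [mem_filter, MP_711652_nt.CH.farey, mem_filter, mem_product, mem_Icc, mem_range]
    exact ⟨⟨⟨⟨hq1, hqQ⟩, lt_of_lt_of_le hu.1 hqQ⟩, hu.1, hu.2⟩, rfl⟩
  · intro w hw
    rw [mem_filter, MP_711652_nt.CH.farey, mem_filter, mem_product, mem_Icc, mem_range] at hw
    rw [mem_filter, mem_range, ← hw.2]
    exact ⟨hw.1.2.1, hw.1.2.2⟩
  · intro u _
    rfl
  · intro w hw
    rw [mem_filter] at hw
    exact Prod.ext hw.2.symm rfl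
  · intro u _
    rfl

theorem ls_fam {N Q : ℕ} (hQ : 1 ≤ Q) (hN : Q ^ 2 ≤ N) (A P : Finset ℕ) (hA : ∀ n ∈ A, n < N)
    (hP : ∀ p ∈ P, p.Prime) (Om : ℕ → Finset ℕ)
    (hOm : ∀ p ∈ P, Om p ⊆ range p ∧ (Om p).card < p) (hav : ∀ p ∈ P, ∀ n ∈ A, n % p ∉ Om p)
    (DD : Finset (Finset ℕ)) (hDD : ∀ D ∈ DD, D ⊆ P ∧ ∏ p ∈ D, p ≤ Q) :
    (A.card : ℝ) * ∑ D ∈ DD, ∏ p ∈ D, ((Om p).card : ℝ) / ((p : ℝ) - (Om p).card) ≤ 8 * N := by
  classical
  set g : ℕ → ℝ := fun p => ((Om p).card : ℝ) / ((p : ℝ) - (Om p).card) with hg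
  rcases A.eq_empty_or_nonempty with hA0 | hA0
  · rw [hA0, Finset.card_empty, Nat.cast_zero, zero_mul]
    positivity
  have hcA : (0 : ℝ) < A.card := by exact_mod_cast hA0.card_pos
  have himg : ∀ p ∈ P, (A.image (fun n => n % p)).card + (Om p).card ≤ p := by
    intro p hp
    have hdis : Disjoint (A.image (fun n => n % p)) (Om p) := by
      rw [Finset.disjoint_left]
      intro a ha
      rw [mem_image] at ha
      obtain ⟨n, hn, rfl⟩ := ha
      exact hav p hp n hn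
    rw [← Finset.card_union_of_disjoint hdis]
    calc _ ≤ (range p).card := by
          refine Finset.card_le_card (Finset.union_subset ?_ (hOm p hp).1)
          intro a ha
          rw [mem_image] at ha
          obtain ⟨n, _, rfl⟩ := ha
          exact mem_range.2 (Nat.mod_lt _ (hP p hp).pos)
      _ = p := card_range p
  -- the sum `S(u/q)`
  set G : ℕ × ℕ → ℝ := fun w => ‖∑ n ∈ A, MP_711652_nt.CH.ee ((n : ℝ) * ((w.2 : ℝ) / w.1))‖ ^ 2
    with hG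
  have hG0 : ∀ w, 0 ≤ G w := fun w => by positivity
  have hls : ∑ w ∈ MP_711652_nt.CH.farey Q, G w ≤ 8 * N * A.card := by
    have h1 := MP_711652_nt.CH.ls_add Q N hQ hN (fun l => if l ∈ A then 1 else 0)
    have h2 : ∑ l ∈ range N, ‖(if l ∈ A then (1 : ℂ) else 0)‖ ^ 2 = A.card := by
      have h3 : ∀ l ∈ range N, ‖(if l ∈ A then (1 : ℂ) else 0)‖ ^ 2 = if l ∈ A then (1 : ℝ) else 0 := by
        intro l _
        split_ifs <;> simp
      rw [Finset.sum_congr rfl h3, Finset.sum_ite_mem, Finset.inter_eq_right.2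
        (fun n hn => mem_range.2 (hA n hn)), Finset.sum_const, nsmul_eq_mul, mul_one]
    rw [h2] at h1
    refine le_trans (le_of_eq ?_) h1
    refine Finset.sum_congr rfl fun w _ => ?_
    have h4 : ∑ n ∈ A, MP_711652_nt.CH.ee ((n : ℝ) * ((w.2 : ℝ) / w.1)) =
        ∑ l ∈ range N, (if l ∈ A then (1 : ℂ) else 0) *
          MP_711652_nt.CH.ee ((l : ℝ) * ((w.2 : ℝ) / w.1)) := by
      have h5 : ∀ l ∈ range N, (if l ∈ A then (1 : ℂ) else 0) *
          MP_711652_nt.CH.ee ((l : ℝ) * ((w.2 : ℝ) / w.1)) =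
          if l ∈ A then MP_711652_nt.CH.ee ((l : ℝ) * ((w.2 : ℝ) / w.1)) else 0 := by
        intro l _
        split_ifs <;> simp
      rw [Finset.sum_congr rfl h5, Finset.sum_ite_mem, Finset.inter_eq_right.2
        (fun n hn => mem_range.2 (hA n hn))]
    rw [hG]
    simp only
    rw [h4]
  -- the product of the primes is injective on the sets
  have hprime : ∀ D ∈ DD, ∀ p ∈ D, p.Prime := fun D hD p hp => hP p ((hDD D hD).1 hp)
  have hpos : ∀ D ∈ DD, 1 ≤ ∏ p ∈ D, p := fun D hD => Finset.prod_pos fun p hp => (hprime D hD p hp).pos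
  have hinj : ∀ D ∈ DD, ∀ E ∈ DD, ∏ p ∈ D, p = ∏ p ∈ E, p → D = E := by
    intro D hD E hE h
    have h1 := Nat.primeFactors_prod (hprime D hD)
    have h2 := Nat.primeFactors_prod (hprime E hE)
    rw [← h1, ← h2, h]
  have hsum : ∑ D ∈ DD, FF A (∏ p ∈ D, p) 0 ≤ ∑ w ∈ MP_711652_nt.CH.farey Q, G w := by
    have h1 : ∀ D ∈ DD, FF A (∏ p ∈ D, p) 0 =
        ∑ w ∈ (MP_711652_nt.CH.farey Q).filter (fun w => w.1 = ∏ p ∈ D, p), G w := by
      intro D hD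
      rw [← MonE_farey (hpos D hD) (hDD D hD).2 G]
      unfold FF
      refine Finset.sum_congr rfl fun u _ => ?_
      rw [hG]
      simp only
      rw [add_zero]
    rw [Finset.sum_congr rfl h1, ← Finset.sum_biUnion]
    · refine Finset.sum_le_sum_of_subset_of_nonneg ?_ fun w _ _ => hG0 w
      intro w hw
      rw [mem_biUnion] at hw
      obtain ⟨D, _, h2⟩ := hw
      exact (mem_filter.1 h2).1
    · intro D hD E hE hDE
      rw [Function.onFun, Finset.disjoint_left]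
      intro w h2 h3
      rw [mem_filter] at h2 h3
      exact hDE (hinj D hD E hE (h2.2.symm.trans h3.2))
  have hkey : ∀ D ∈ DD, (∏ p ∈ D, g p) * (A.card : ℝ) ^ 2 ≤ FF A (∏ p ∈ D, p) 0 := by
    intro D hD
    have h1 := mon_prod_gen A (fun p => (Om p).card) D
      (fun p hp => ⟨hprime D hD p hp, (hOm p ((hDD D hD).1 hp)).2, himg p ((hDD D hD).1 hp)⟩) 0
    have h2 : ‖∑ n ∈ A, MP_711652_nt.CH.ee ((n : ℝ) * 0)‖ ^ 2 = (A.card : ℝ) ^ 2 := by
      have h3 : ∀ n ∈ A, MP_711652_nt.CH.ee ((n : ℝ) * 0) = 1 := by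
        intro n _
        unfold MP_711652_nt.CH.ee
        simp
      rw [Finset.sum_congr rfl h3, Finset.sum_const, nsmul_eq_mul, mul_one, Complex.norm_natCast]
    rw [h2] at h1
    exact h1
  have hfin : (∑ D ∈ DD, ∏ p ∈ D, g p) * (A.card : ℝ) ^ 2 ≤ 8 * N * A.card := by
    rw [Finset.sum_mul]
    exact (Finset.sum_le_sum hkey).trans (hsum.trans hls)
  have h1 : ((A.card : ℝ) * ∑ D ∈ DD, ∏ p ∈ D, g p) * A.card ≤ 8 * N * A.card := by
    calc _ = (∑ D ∈ DD, ∏ p ∈ D, g p) * (A.card : ℝ) ^ 2 := by ring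
      _ ≤ _ := hfin
  exact le_of_mul_le_mul_right h1 hcA

end Pool.Agent.H.MP_c90f74_nt.SF
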