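import Pool.Agent.H.MP_c90f74_nt.SF.MonC
import Pool.Agent.H.MP_c90f74_nt.SF.MonE

/-!
# MonD: Montgomery's sieve
-/

set_option autoImplicit false

namespace Pool.Agent.H.MP_c90f74_nt.SF

open Finset

theorem mont (Z P : Finset ℕ) (N m r z : ℕ) (hZ : Z ⊆ range N)
    (hP : ∀ p ∈ P, p.Prime ∧ r < p ∧ p ≤ z ∧ (Z.image (fun n => n % p)).card + r ≤ p)
    (hz : 1 ≤ z) (hN : z ^ (2 * m) ≤ N) :
    (Z.card : ℝ) * ∑ T ∈ P.powersetCard m, ∏ p ∈ T, (r : ℝ) / ((p : ℝ) - r) ≤ 8 * N := by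
  classical
  have hex : ∀ p : ℕ, ∃ O : Finset ℕ, p ∈ P → O ⊆ range p \ Z.image (fun n => n % p) ∧ O.card = r := by
    intro p
    by_cases hp : p ∈ P
    · have h1 : Z.image (fun n => n % p) ⊆ range p := by
        intro a ha
        rw [mem_image] at ha
        obtain ⟨n, _, rfl⟩ := ha
        exact mem_range.2 (Nat.mod_lt _ (hP p hp).1.pos)
      have h2 : r ≤ (range p \ Z.image (fun n => n % p)).card := by
        rw [Finset.card_sdiff_of_subset h1, card_range]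
        have h3 := (hP p hp).2.2.2
        omega
      obtain ⟨O, hO, hOc⟩ := Finset.exists_subset_card_eq h2
      exact ⟨O, fun _ => ⟨hO, hOc⟩⟩
    · exact ⟨∅, fun h => absurd h hp⟩
  choose Om hOm using hex
  have h1 := ls_fam (N := N) (Q := z ^ m) (Nat.one_le_pow _ _ hz)
    (by rw [← pow_mul, mul_comm m 2]; exact hN) Z P (fun n hn => mem_range.1 (hZ hn))
    (fun p hp => (hP p hp).1) Om
    (fun p hp => ⟨fun a ha => (mem_sdiff.1 ((hOm p hp).1 ha)).1, by rw [(hOm p hp).2]; exact (hP p hp).2.1⟩)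
    (fun p hp n hn hmem => (mem_sdiff.1 ((hOm p hp).1 hmem)).2 (mem_image_of_mem _ hn))
    (P.powersetCard m)
    (fun D hD => ⟨(mem_powersetCard.1 hD).1, by
      calc ∏ p ∈ D, p ≤ ∏ _p ∈ D, z :=
            Finset.prod_le_prod' fun p hp => (hP p ((mem_powersetCard.1 hD).1 hp)).2.2.1
        _ = z ^ m := by rw [Finset.prod_const, (mem_powersetCard.1 hD).2]⟩)
  refine le_trans (le_of_eq ?_) h1
  congr 1
  refine Finset.sum_congr rfl fun D hD => ?_
  refine Finset.prod_congr rfl fun p hp => ?_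
  rw [(hOm p ((mem_powersetCard.1 hD).1 hp)).2]

end Pool.Agent.H.MP_c90f74_nt.SF
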