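import Pool.Agent.H.MP_c90f74_nt.SF.Defs

/-!
# Ord: the primes modulo which two powers `2^k`, `k ≤ L`, agree

PROOF. `ord_sum`: the primes of `(y, z]` not in `PP y z L` divide `D = ∏_{1 ≤ h < L} (2^h - 1) < 2^(L^2)`, so there are at most `L^2` of them (a product of `s` distinct primes dividing `D` is at
least `2^s` and at most `D`; or `Nat.card_primeFactors_le_log` / `prod_primeFactors_dvd`), each with `1/p ≤ 1/y ≤ 1/L^3`; so their sum is at most `1`.
`ord_inj`: if `k < k'` then `p ∣ 2^k (2^(k'-k) - 1)` and `p` is odd (`p > y ≥ 2`), so `p ∣ 2^(k'-k) - 1` with `1 ≤ k' - k < L`.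
-/

set_option autoImplicit false

namespace Pool.Agent.H.MP_c90f74_nt.SF

open Finset

private theorem Ord_card (N : ℕ) (hN : N ≠ 0) {h : ℕ} (hh : N < 2 ^ h) : N.primeFactors.card ≤ h := by
  have h1 : 2 ^ N.primeFactors.card ≤ ∏ p ∈ N.primeFactors, p :=
    Finset.pow_card_le_prod _ _ _ fun p hp => (Nat.prime_of_mem_primeFactors hp).two_le
  have h2 : ∏ p ∈ N.primeFactors, p ≤ N :=
    Nat.le_of_dvd (Nat.pos_of_ne_zero hN) (Nat.prod_primeFactors_dvd N)
  have h3 : 2 ^ N.primeFactors.card < 2 ^ h := lt_of_le_of_lt (h1.trans h2) hh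
  exact ((Nat.pow_lt_pow_iff_right (by norm_num)).1 h3).le

theorem ord_sum (y z L : ℕ) (hL : 1 ≤ L) (hy : L ^ 3 ≤ y) :
    (∑ p ∈ (Ioc y z).filter Nat.Prime, 1 / (p : ℝ)) - 1 ≤ ∑ p ∈ PP y z L, 1 / (p : ℝ) := by
  classical
  set A := (Ioc y z).filter Nat.Prime with hA
  have hsub : PP y z L ⊆ A := by
    intro p hp
    simp only [PP, mem_filter] at hp
    exact mem_filter.2 ⟨hp.1, hp.2.1⟩
  have hsum := Finset.sum_sdiff (f := fun p : ℕ => 1 / (p : ℝ)) hsub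
  have hB : A \ PP y z L ⊆ (Ico 1 L).biUnion fun h => (2 ^ h - 1).primeFactors := by
    intro p hp
    rw [mem_sdiff] at hp
    obtain ⟨hpA, hpP⟩ := hp
    rw [hA, mem_filter] at hpA
    simp only [PP, mem_filter, not_and, not_forall] at hpP
    obtain ⟨h, h1, h2, h3⟩ := hpP hpA.1 hpA.2
    rw [not_not] at h3
    rw [mem_biUnion]
    refine ⟨h, mem_Ico.2 ⟨h1, h2⟩, Nat.mem_primeFactors.2 ⟨hpA.2, h3, ?_⟩⟩
    have : 2 ^ 1 ≤ 2 ^ h := Nat.pow_le_pow_right (by norm_num) h1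
    omega
  have hcard : (A \ PP y z L).card ≤ L ^ 2 := by
    refine (card_le_card hB).trans (card_biUnion_le.trans ?_)
    have h1 : ∀ h ∈ Ico 1 L, (2 ^ h - 1).primeFactors.card ≤ L := by
      intro h hh
      rw [mem_Ico] at hh
      have h2 : 2 ^ 1 ≤ 2 ^ h := Nat.pow_le_pow_right (by norm_num) hh.1
      exact (Ord_card _ (by omega) (h := h) (by omega)).trans hh.2.le
    refine (sum_le_sum h1).trans ?_
    rw [sum_const, smul_eq_mul, Nat.card_Ico, sq]
    exact Nat.mul_le_mul_right _ (Nat.sub_le _ _)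
  have hL0 : (0 : ℝ) < L := by exact_mod_cast hL
  have hle : ∑ p ∈ A \ PP y z L, 1 / (p : ℝ) ≤ 1 := by
    have h1 : ∀ p ∈ A \ PP y z L, 1 / (p : ℝ) ≤ 1 / (L : ℝ) ^ 3 := by
      intro p hp
      have h2 := (mem_filter.1 (mem_sdiff.1 hp).1).1
      rw [mem_Ioc] at h2
      have h3 : L ^ 3 ≤ p := hy.trans h2.1.le
      have h4 : (L : ℝ) ^ 3 ≤ p := by exact_mod_cast h3
      exact one_div_le_one_div_of_le (by positivity) h4
    refine (sum_le_sum h1).trans ?_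
    rw [sum_const, nsmul_eq_mul, mul_one_div, div_le_one (by positivity)]
    have h5 : ((A \ PP y z L).card : ℝ) ≤ (L : ℝ) ^ 2 := by exact_mod_cast hcard
    have h6 : (1 : ℝ) ≤ L := by exact_mod_cast hL
    nlinarith [sq_nonneg (L : ℝ), pow_pos hL0 2]
  linarith

theorem ord_inj {y z L p k k' : ℕ} (hy : 2 ≤ y) (hp : p ∈ PP y z L) (hk : k ∈ Icc 1 L)
    (hk' : k' ∈ Icc 1 L) (h : 2 ^ k ≡ 2 ^ k' [MOD p]) : k = k' := by
  have key : ∀ a b : ℕ, a ∈ Icc 1 L → b ∈ Icc 1 L → a < b → ¬ 2 ^ a ≡ 2 ^ b [MOD p] := by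
    intro a b ha hb hab hc
    simp only [PP, mem_filter, mem_Ioc] at hp
    rw [mem_Icc] at ha hb
    obtain ⟨⟨hp1, hp2⟩, hpp, hh⟩ := hp
    refine hh (b - a) (by omega) (by omega) ?_
    have h1 : p ∣ 2 ^ b - 2 ^ a :=
      (Nat.modEq_iff_dvd' (Nat.pow_le_pow_right (by norm_num) hab.le)).1 hc
    have h2 : 2 ^ b - 2 ^ a = 2 ^ a * (2 ^ (b - a) - 1) := by
      rw [Nat.mul_sub, mul_one, ← pow_add]
      congr 2
      omega
    rw [h2] at h1
    have h3 : Nat.Coprime p (2 ^ a) := by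
      apply Nat.Coprime.pow_right
      rw [Nat.coprime_comm, Nat.coprime_primes Nat.prime_two hpp]
      omega
    exact h3.dvd_of_dvd_mul_left h1
  rcases lt_trichotomy k k' with h1 | h1 | h1
  · exact absurd h (key k k' hk hk' h1)
  · exact h1
  · exact absurd h.symm (key k' k hk' hk h1)

end Pool.Agent.H.MP_c90f74_nt.SF
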