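import Mathlib

/-!
# Sym: a lower bound for the elementary symmetric sums

PROOF. `e_j = ∑_{T ∈ powersetCard j P} ∏_T g`. `(j + 1) e_{j+1} = ∑_{T ∈ powersetCard j P} (∏_T g) ∑_{p ∈ P \ T} g p` (pairs `p ∈ T'` on the left: `T = T'.erase p`) and
`∑_{P \ T} g ≥ G - j ≥ G/2` for `j ≤ m ≤ G/2`, so `e_{j+1} ≥ e_j G / (2 m)` for `j < m`; induction.
-/

set_option autoImplicit false

namespace Pool.Agent.H.MP_c90f74_nt.SF

open Finset

theorem Sym_step (P : Finset ℕ) (g : ℕ → ℝ) (j : ℕ) :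
    ((j : ℝ) + 1) * ∑ T ∈ P.powersetCard (j + 1), ∏ p ∈ T, g p =
      ∑ T ∈ P.powersetCard j, (∏ p ∈ T, g p) * ∑ p ∈ P \ T, g p := by
  have h1 : ((j : ℝ) + 1) * ∑ T ∈ P.powersetCard (j + 1), ∏ p ∈ T, g p =
      ∑ T ∈ P.powersetCard (j + 1), ∑ _q ∈ T, ∏ p ∈ T, g p := by
    rw [mul_sum]
    refine sum_congr rfl fun T hT => ?_
    rw [sum_const, (mem_powersetCard.mp hT).2, nsmul_eq_mul]
    push_cast
    ring
  have h2 : ∑ T ∈ P.powersetCard j, (∏ p ∈ T, g p) * ∑ p ∈ P \ T, g p =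
      ∑ T ∈ P.powersetCard j, ∑ q ∈ P \ T, (∏ p ∈ T, g p) * g q :=
    sum_congr rfl fun T _ => mul_sum _ _ _
  rw [h1, h2, sum_sigma', sum_sigma']
  refine sum_bij' (fun x _ => ⟨x.1.erase x.2, x.2⟩) (fun x _ => ⟨insert x.2 x.1, x.2⟩)
    ?_ ?_ ?_ ?_ ?_
  · rintro ⟨T, q⟩ h
    obtain ⟨hT, hq⟩ := mem_sigma.mp h
    simp only at hT hq
    obtain ⟨hTP, hTc⟩ := mem_powersetCard.mp hT
    refine mem_sigma.mpr ⟨mem_powersetCard.mpr ⟨(erase_subset _ _).trans hTP, ?_⟩, ?_⟩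
    · simp only
      rw [card_erase_of_mem hq, hTc]
      omega
    · simp only
      exact mem_sdiff.mpr ⟨hTP hq, notMem_erase _ _⟩
  · rintro ⟨T, q⟩ h
    obtain ⟨hT, hq⟩ := mem_sigma.mp h
    simp only at hT hq
    obtain ⟨hTP, hTc⟩ := mem_powersetCard.mp hT
    obtain ⟨hqP, hqT⟩ := mem_sdiff.mp hq
    refine mem_sigma.mpr ⟨mem_powersetCard.mpr ⟨insert_subset hqP hTP, ?_⟩, ?_⟩
    · simp only
      rw [card_insert_of_notMem hqT, hTc]
    · simp only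
      exact mem_insert_self _ _
  · rintro ⟨T, q⟩ h
    obtain ⟨hT, hq⟩ := mem_sigma.mp h
    simp only at hT hq ⊢
    rw [insert_erase hq]
  · rintro ⟨T, q⟩ h
    obtain ⟨hT, hq⟩ := mem_sigma.mp h
    simp only at hT hq ⊢
    rw [erase_insert (mem_sdiff.mp hq).2]
  · rintro ⟨T, q⟩ h
    obtain ⟨hT, hq⟩ := mem_sigma.mp h
    simp only at hT hq ⊢
    rw [mul_comm, mul_prod_erase _ _ hq]

theorem sym_ge (P : Finset ℕ) (g : ℕ → ℝ) (m : ℕ) (hm : 1 ≤ m) (hg : ∀ p ∈ P, 0 ≤ g p ∧ g p ≤ 1)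
    (hG : 2 * (m : ℝ) ≤ ∑ p ∈ P, g p) :
    ((∑ p ∈ P, g p) / (2 * m)) ^ m ≤ ∑ T ∈ P.powersetCard m, ∏ p ∈ T, g p := by
  obtain ⟨G, hGdef⟩ : ∃ G : ℝ, G = ∑ p ∈ P, g p := ⟨_, rfl⟩
  rw [← hGdef] at hG ⊢
  have hm0 : (0 : ℝ) < m := Nat.cast_pos.mpr hm
  have hG0 : 0 ≤ G := by linarith
  have hr : 0 ≤ G / (2 * m) := div_nonneg hG0 (by positivity)
  have key : ∀ j : ℕ, j ≤ m → (G / (2 * m)) ^ j ≤ ∑ T ∈ P.powersetCard j, ∏ p ∈ T, g p := by
    intro j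
    induction j with
    | zero =>
      intro _
      simp
    | succ j ih =>
      intro hj
      have h1 := ih (by omega)
      have h2 := Sym_step P g j
      have h3 : ∀ T ∈ P.powersetCard j, (∏ p ∈ T, g p) * (G / 2) ≤
          (∏ p ∈ T, g p) * ∑ p ∈ P \ T, g p := by
        intro T hT
        obtain ⟨hTP, hTc⟩ := mem_powersetCard.mp hT
        have h4 : 0 ≤ ∏ p ∈ T, g p := prod_nonneg fun p hp => (hg p (hTP hp)).1
        refine mul_le_mul_of_nonneg_left ?_ h4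
        have h5 : ∑ p ∈ P \ T, g p + ∑ p ∈ T, g p = G := by
          rw [hGdef]
          exact sum_sdiff hTP
        have h6 : ∑ p ∈ T, g p ≤ j := by
          have h7 : ∑ p ∈ T, g p ≤ ∑ _p ∈ T, (1 : ℝ) :=
            sum_le_sum fun p hp => (hg p (hTP hp)).2
          rw [sum_const, hTc, nsmul_eq_mul, mul_one] at h7
          exact h7
        have h8 : (j : ℝ) ≤ m := Nat.cast_le.mpr (by omega)
        linarith
      have h4 := sum_le_sum h3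
      rw [← sum_mul, ← h2] at h4
      have h5 : ((j : ℝ) + 1) ≤ m := by exact_mod_cast hj
      obtain ⟨e0, he0⟩ : ∃ e0 : ℝ, e0 = ∑ T ∈ P.powersetCard j, ∏ p ∈ T, g p := ⟨_, rfl⟩
      obtain ⟨e1, he1⟩ : ∃ e1 : ℝ, e1 = ∑ T ∈ P.powersetCard (j + 1), ∏ p ∈ T, g p := ⟨_, rfl⟩
      rw [← he0] at h1
      rw [← he0, ← he1] at h4
      rw [← he1]
      have h6 : 0 ≤ e1 := by
        rw [he1]
        exact sum_nonneg fun T hT => prod_nonneg fun p hp =>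
          (hg p ((mem_powersetCard.mp hT).1 hp)).1
      have h7 : ((j : ℝ) + 1) * e1 ≤ m * e1 := mul_le_mul_of_nonneg_right h5 h6
      have h8 : e0 * (G / (2 * m)) ≤ e1 := by
        have h9 : e0 * (G / 2) ≤ m * e1 := h4.trans h7
        have h10 : e0 * (G / (2 * m)) = e0 * (G / 2) / m := by
          field_simp
        rw [h10, div_le_iff₀ hm0]
        linarith
      calc (G / (2 * m)) ^ (j + 1) = (G / (2 * m)) ^ j * (G / (2 * m)) := pow_succ _ _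
        _ ≤ e0 * (G / (2 * m)) := mul_le_mul_of_nonneg_right h1 hr
        _ ≤ e1 := h8
  exact key m le_rfl

end Pool.Agent.H.MP_c90f74_nt.SF
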