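import Pool.Agent.H.MP_3e6494_nt.helper15.Mertens

/-!
# Win: the sum of `1/p` over `(y, y^(2^I)]`

PROOF. Induction on `I`. For `w = y^(2^i)` and `w^2 = y^(2^(i+1))`: `∑_{w < p ≤ w^2} 1/p ≥ (∑_{w < p ≤ w^2} (log p)/p) / log (w^2) ≥ (log w - C0) / (2 log w)` by `mertens_lower`
(`Pool.Agent.H.MP_3e6494_nt.H15.mertens_lower`), and this is `≥ 1/4` if `log w ≥ 2 C0`, `log w > 0`.
-/

set_option autoImplicit false

namespace Pool.Agent.H.MP_c90f74_nt.SF

open Finset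

/-- One step of the induction. -/
theorem Win_step (C0 : ℝ) (hC : ∀ x y : ℕ, 2 ≤ x → x ≤ y → Real.log y - Real.log x - C0 ≤
      ∑ p ∈ (Finset.Ioc x y).filter Nat.Prime, Real.log p / p)
    (w : ℕ) (hw : 2 ≤ w) (hlog : 2 * C0 ≤ Real.log w) :
    (1 : ℝ) / 4 ≤ ∑ p ∈ (Ioc w (w ^ 2)).filter Nat.Prime, 1 / (p : ℝ) := by
  have hw1 : w ≤ w ^ 2 := by nlinarith
  have h1 := hC w (w ^ 2) hw hw1
  have hwR : (2 : ℝ) ≤ (w : ℝ) := by exact_mod_cast hw
  have hlw : 0 < Real.log w := Real.log_pos (by linarith)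
  have h2 : Real.log ((w ^ 2 : ℕ) : ℝ) = 2 * Real.log w := by
    push_cast
    rw [Real.log_pow]
    norm_num
  rw [h2] at h1
  have h3 : ∑ p ∈ (Finset.Ioc w (w ^ 2)).filter Nat.Prime, Real.log p / p ≤
      ∑ p ∈ (Ioc w (w ^ 2)).filter Nat.Prime, (2 * Real.log w) * (1 / (p : ℝ)) := by
    refine Finset.sum_le_sum (fun p hp => ?_)
    rw [Finset.mem_filter, Finset.mem_Ioc] at hp
    have hp0 : (0 : ℝ) < (p : ℝ) := by exact_mod_cast hp.2.pos
    have h4 : Real.log p ≤ 2 * Real.log w := by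
      rw [← h2]
      exact Real.log_le_log hp0 (by exact_mod_cast hp.1.2)
    calc Real.log p / p = Real.log p * (1 / (p : ℝ)) := by ring
      _ ≤ (2 * Real.log w) * (1 / (p : ℝ)) :=
        mul_le_mul_of_nonneg_right h4 (by positivity)
  rw [← Finset.mul_sum] at h3
  by_contra hcon
  rw [not_le] at hcon
  have h5 : (2 * Real.log w) * ∑ p ∈ (Ioc w (w ^ 2)).filter Nat.Prime, 1 / (p : ℝ) <
      (2 * Real.log w) * (1 / 4) := mul_lt_mul_of_pos_left hcon (by linarith)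
  linarith

theorem win : ∃ y0 : ℕ, 2 ≤ y0 ∧ ∀ y I : ℕ, y0 ≤ y →
    (I : ℝ) / 4 ≤ ∑ p ∈ (Ioc y (y ^ (2 ^ I))).filter Nat.Prime, 1 / (p : ℝ) := by
  obtain ⟨C0, hC⟩ := MP_3e6494_nt.H15.mertens_lower
  refine ⟨max 2 ⌈Real.exp (2 * C0)⌉₊, le_max_left _ _, ?_⟩
  intro y I hy
  have hy2 : 2 ≤ y := le_trans (le_max_left _ _) hy
  have hyC : Real.exp (2 * C0) ≤ (y : ℝ) := by
    refine le_trans (Nat.le_ceil _) ?_
    exact_mod_cast le_trans (le_max_right _ _) hy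
  have hyl : 2 * C0 ≤ Real.log y := by
    have hy0 : (0 : ℝ) < (y : ℝ) := by exact_mod_cast (by omega : 0 < y)
    rw [Real.le_log_iff_exp_le hy0]
    exact hyC
  induction I with
  | zero => simp
  | succ i ih =>
    have hw1 : y ≤ y ^ (2 ^ i) := by
      calc y = y ^ 1 := (pow_one y).symm
        _ ≤ y ^ (2 ^ i) := Nat.pow_le_pow_right (by omega) Nat.one_le_two_pow
    have hsq : y ^ (2 ^ (i + 1)) = (y ^ (2 ^ i)) ^ 2 := by
      rw [← pow_mul, pow_succ]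
    have hw2 : y ^ (2 ^ i) ≤ (y ^ (2 ^ i)) ^ 2 := by
      have : 1 ≤ y ^ (2 ^ i) := by omega
      nlinarith
    have hstep := Win_step C0 hC (y ^ (2 ^ i)) (by omega) (by
      refine le_trans hyl ?_
      exact Real.log_le_log (by exact_mod_cast (by omega : 0 < y)) (by exact_mod_cast hw1))
    have hsplit : (Ioc y ((y ^ (2 ^ i)) ^ 2)).filter Nat.Prime =
        (Ioc y (y ^ (2 ^ i))).filter Nat.Prime ∪
          (Ioc (y ^ (2 ^ i)) ((y ^ (2 ^ i)) ^ 2)).filter Nat.Prime := by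
      rw [← Finset.filter_union, Finset.Ioc_union_Ioc_eq_Ioc hw1 hw2]
    have hdisj : Disjoint ((Ioc y (y ^ (2 ^ i))).filter Nat.Prime)
        ((Ioc (y ^ (2 ^ i)) ((y ^ (2 ^ i)) ^ 2)).filter Nat.Prime) := by
      rw [Finset.disjoint_left]
      intro a ha hb
      rw [Finset.mem_filter, Finset.mem_Ioc] at ha hb
      omega
    rw [hsq, hsplit, Finset.sum_union hdisj]
    push_cast
    linarith

end Pool.Agent.H.MP_c90f74_nt.SF
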