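import Mathlib

/-!
# Par: the parameters

PROOF. `L = Nat.log 2 x + 1`, `y = L^3`, `z = y^(2^I) = L^(3 * 2^I)`, `m = ⌊log H / (2 log z)⌋`. For `log x ≥ 2`: `log x ≤ log x / log 2 ≤ L ≤ log x / log 2 + 1 ≤ 2 log x`
(`Nat.pow_log_le_self`, `Nat.lt_pow_succ_log_self`), so `loglog x ≤ log L ≤ 2 loglog x` and `3 * 2^I loglog x ≤ log z ≤ 6 * 2^I loglog x`; `z ≤ (2 log x)^(3 * 2^I) ≤ (log x)^(6 * 2^I)`.
`z^(2m) ≤ H` from `2 m log z ≤ log H`; `log H ≥ 24 * 2^I loglog x ≥ 4 log z`, so `m ≥ log H/(2 log z) - 1 ≥ log H/(4 log z) ≥ log H/(24 * 2^I loglog x)` and `m ≥ 1`;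
`m ≤ log H/(2 log z) ≤ log H/(6 loglog x)`; `2 z ≤ z^2 ≤ z^(2m) ≤ H ≤ x`.
-/

set_option autoImplicit false

namespace Pool.Agent.H.MP_c90f74_nt.SF

private theorem Par_L {x : ℕ} (hx : x ≠ 0) :
    Real.log x ≤ (Nat.log 2 x + 1 : ℕ) * Real.log 2 ∧
      ((Nat.log 2 x + 1 : ℕ) : ℝ) * Real.log 2 ≤ Real.log x + Real.log 2 := by
  have hx0 : (0 : ℝ) < x := Nat.cast_pos.2 (Nat.pos_of_ne_zero hx)
  constructor
  · have h : ((x : ℕ) : ℝ) ≤ (2 : ℝ) ^ (Nat.log 2 x + 1) := by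
      exact_mod_cast (Nat.lt_pow_succ_log_self (by norm_num) x).le
    have h1 := Real.log_le_log hx0 h
    rwa [Real.log_pow] at h1
  · have h : (2 : ℝ) ^ (Nat.log 2 x) ≤ (x : ℝ) := by
      exact_mod_cast Nat.pow_log_le_self 2 hx
    have h1 := Real.log_le_log (by positivity) h
    rw [Real.log_pow] at h1
    push_cast
    linarith

theorem par (I y0 : ℕ) (B : ℝ) : ∃ x₀ : ℕ, ∀ x H : ℕ, x₀ ≤ x → Real.log x ^ (24 * 2 ^ I) ≤ H → H ≤ x →
    ∃ L y m : ℕ, L = Nat.log 2 x + 1 ∧ y = L ^ 3 ∧ y0 ≤ y ∧ B ≤ L ∧ B ≤ Real.log (Real.log x) ∧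
      1 ≤ Real.log (Real.log x) ∧ 1 ≤ m ∧ (y ^ (2 ^ I)) ^ (2 * m) ≤ H ∧ 2 * y ^ (2 ^ I) ≤ x ∧
      ((y ^ (2 ^ I) : ℕ) : ℝ) ≤ Real.log x ^ (24 * 2 ^ I) ∧
      Real.log H / (24 * 2 ^ I * Real.log (Real.log x)) ≤ m ∧
      (m : ℝ) ≤ Real.log H / (6 * Real.log (Real.log x)) ∧ Real.log x ≤ L ∧ Real.logb 2 x ≤ L ∧
      24 ≤ Real.log H / Real.log (Real.log x) := by
  have ht1 : Filter.Tendsto (fun x : ℕ => Real.log (x : ℝ)) Filter.atTop Filter.atTop :=
    Real.tendsto_log_atTop.comp tendsto_natCast_atTop_atTop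
  have ht2 : Filter.Tendsto (fun x : ℕ => Real.log (Real.log (x : ℝ))) Filter.atTop
      Filter.atTop := Real.tendsto_log_atTop.comp ht1
  obtain ⟨x₀, hx₀⟩ := Filter.eventually_atTop.1
    ((ht1.eventually_ge_atTop (max (max 3 (y0 : ℝ)) B)).and
      (ht2.eventually_ge_atTop (max 1 B)))
  refine ⟨x₀, fun x H hx hH hHx => ?_⟩
  obtain ⟨h1, h2⟩ := hx₀ x hx
  obtain ⟨l, hl⟩ : ∃ l : ℝ, l = Real.log x := ⟨_, rfl⟩
  obtain ⟨q, hq⟩ : ∃ q : ℝ, q = Real.log l := ⟨_, rfl⟩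
  rw [← hl, ← hq] at h2
  rw [← hl] at h1 hH
  have hl3 : 3 ≤ l := ((le_max_left _ _).trans (le_max_left _ _)).trans h1
  have hly : (y0 : ℝ) ≤ l := ((le_max_right _ _).trans (le_max_left _ _)).trans h1
  have hlB : B ≤ l := (le_max_right _ _).trans h1
  have hq1 : 1 ≤ q := (le_max_left _ _).trans h2
  have hqB : B ≤ q := (le_max_right _ _).trans h2
  have hl0 : 0 < l := by linarith
  have hxne : x ≠ 0 := by
    intro h
    rw [h, Nat.cast_zero, Real.log_zero] at hl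
    linarith
  have log2a : 0.6931471803 < Real.log 2 := Real.log_two_gt_d9
  have log2b : Real.log 2 < 0.6931471808 := Real.log_two_lt_d9
  obtain ⟨L, hL⟩ : ∃ L : ℕ, L = Nat.log 2 x + 1 := ⟨_, rfl⟩
  obtain ⟨e1, e2⟩ := Par_L hxne
  rw [← hL, ← hl] at e1 e2
  have hLl : l ≤ L := by
    have : (0 : ℝ) ≤ L := Nat.cast_nonneg L
    nlinarith
  have hL2 : (L : ℝ) ≤ 2 * l := by
    have : (0 : ℝ) ≤ L := Nat.cast_nonneg L
    nlinarith
  have hL0 : (0 : ℝ) < L := by linarith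
  have hLn : 3 ≤ L := by
    have : (3 : ℝ) ≤ L := by linarith
    exact_mod_cast this
  -- the logarithm of `L`
  have hqL : q ≤ Real.log L := by
    rw [hq]
    exact Real.log_le_log hl0 hLl
  have hLq : Real.log L ≤ 2 * q := by
    have h := Real.log_le_log hL0 hL2
    rw [Real.log_mul (by norm_num) hl0.ne', ← hq] at h
    linarith
  -- `z`
  obtain ⟨N, hN⟩ : ∃ N : ℕ, N = 3 * 2 ^ I := ⟨_, rfl⟩
  have hI1 : 1 ≤ 2 ^ I := Nat.one_le_two_pow
  have hN3 : 3 ≤ N := by omega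
  have hz : (L ^ 3) ^ (2 ^ I) = L ^ N := by rw [hN, pow_mul]
  obtain ⟨z, hzd⟩ : ∃ z : ℕ, z = L ^ N := ⟨_, rfl⟩
  have hzL : L ≤ z := by
    rw [hzd]
    exact Nat.le_self_pow (by omega) L
  have hz0 : (0 : ℝ) < z := by
    have : (L : ℝ) ≤ z := by exact_mod_cast hzL
    linarith
  have hlogz : Real.log z = N * Real.log L := by
    rw [hzd, Nat.cast_pow, Real.log_pow]
  have hNr : (N : ℝ) = 3 * 2 ^ I := by
    rw [hN]
    push_cast
    ring
  have hN0 : (0 : ℝ) < N := by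
    have : (3 : ℝ) ≤ N := by exact_mod_cast hN3
    linarith
  have hz1 : N * q ≤ Real.log z := by
    rw [hlogz]
    exact mul_le_mul_of_nonneg_left hqL hN0.le
  have hz2 : Real.log z ≤ 2 * (N * q) := by
    rw [hlogz]
    have := mul_le_mul_of_nonneg_left hLq hN0.le
    linarith
  have hNq : 3 ≤ N * q := by
    have : (3 : ℝ) ≤ N := by exact_mod_cast hN3
    nlinarith
  have hlz0 : 0 < Real.log z := by linarith
  -- `H`
  have hpow : (0 : ℝ) < l ^ (24 * 2 ^ I) := by positivity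
  have hH0 : (0 : ℝ) < H := hpow.trans_le hH
  have hlogH : 8 * (N * q) ≤ Real.log H := by
    have h := Real.log_le_log hpow hH
    rw [Real.log_pow, ← hq] at h
    refine le_trans (le_of_eq ?_) h
    rw [hNr]
    push_cast
    ring
  obtain ⟨m, hm⟩ : ∃ m : ℕ, m = ⌊Real.log H / (2 * Real.log z)⌋₊ := ⟨_, rfl⟩
  have hH4 : 4 * Real.log z ≤ Real.log H := by linarith
  have hHpos : 0 < Real.log H := by linarith
  have hm1 : (m : ℝ) ≤ Real.log H / (2 * Real.log z) := by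
    rw [hm]
    exact Nat.floor_le (by positivity)
  have hm2 : Real.log H / (2 * Real.log z) - 1 ≤ m := by
    rw [hm]
    have := Nat.lt_floor_add_one (Real.log H / (2 * Real.log z))
    linarith
  have hquot : Real.log H / (2 * Real.log z) = 2 * (Real.log H / (4 * Real.log z)) := by
    field_simp
    ring
  have hquot1 : 1 ≤ Real.log H / (4 * Real.log z) := by
    rw [le_div_iff₀ (by positivity)]
    linarith
  have hm3 : Real.log H / (4 * Real.log z) ≤ m := by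
    rw [hquot] at hm2
    linarith
  have hmpos : 1 ≤ m := by
    have : (1 : ℝ) ≤ m := hquot1.trans hm3
    exact_mod_cast this
  have hzm : z ^ (2 * m) ≤ H := by
    have h : ((z : ℝ)) ^ (2 * m) ≤ H := by
      rw [← Real.log_le_log_iff (by positivity) hH0, Real.log_pow]
      rw [le_div_iff₀ (by positivity)] at hm1
      push_cast
      linarith
    exact_mod_cast h
  have hzx : 2 * z ≤ x := by
    have hz2' : 2 ≤ z := by omega
    calc 2 * z ≤ z * z := Nat.mul_le_mul_right z hz2'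
      _ = z ^ 2 := (sq z).symm
      _ ≤ z ^ (2 * m) := Nat.pow_le_pow_right (by omega) (by omega)
      _ ≤ H := hzm
      _ ≤ x := hHx
  refine ⟨L, L ^ 3, m, hL, rfl, ?_, hlB.trans hLl, ?_, ?_, hmpos, ?_, ?_, ?_, ?_, ?_, ?_, ?_, ?_⟩
  · have h : y0 ≤ L := by
      have : (y0 : ℝ) ≤ L := hly.trans hLl
      exact_mod_cast this
    exact h.trans (Nat.le_self_pow (by norm_num) L)
  · rw [← hl, ← hq]
    exact hqB
  · rw [← hl, ← hq]
    exact hq1
  · rw [hz, ← hzd]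
    exact hzm
  · rw [hz, ← hzd]
    exact hzx
  · rw [hz, ← hl]
    push_cast
    have hll : 2 * l ≤ l ^ 2 := by nlinarith
    calc (L : ℝ) ^ N ≤ (l ^ 2) ^ N := pow_le_pow_left₀ hL0.le (hL2.trans hll) N
      _ = l ^ (2 * N) := by rw [pow_mul]
      _ ≤ l ^ (24 * 2 ^ I) := pow_le_pow_right₀ (by linarith) (by omega)
  · rw [← hl, ← hq]
    refine le_trans ?_ hm3
    apply div_le_div_of_nonneg_left hHpos.le (by positivity)
    have h24 : 24 * 2 ^ I * q = 4 * (2 * (N * q)) := by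
      rw [hNr]
      ring
    rw [h24]
    linarith
  · rw [← hl, ← hq]
    refine hm1.trans ?_
    apply div_le_div_of_nonneg_left hHpos.le (by positivity)
    have h3 : 3 * q ≤ N * q := by
      have : (3 : ℝ) ≤ N := by exact_mod_cast hN3
      exact mul_le_mul_of_nonneg_right this (by linarith)
    linarith
  · rw [← hl]
    exact hLl
  · rw [Real.logb, ← hl, div_le_iff₀ (by linarith)]
    exact e1
  · rw [← hl, ← hq, le_div_iff₀ (by linarith)]
    have h3 : 3 * q ≤ N * q := by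
      have : (3 : ℝ) ≤ N := by exact_mod_cast hN3
      exact mul_le_mul_of_nonneg_right this (by linarith)
    linarith

end Pool.Agent.H.MP_c90f74_nt.SF
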