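import Mathlib

/-!
# ParA: small `ε`

PROOF. `r = ⌊m/(4 ε)⌋`, `t = L - s - 2`, `ρ = 1 + 4 ε`. `m/(8 ε) ≤ r ≤ m/(4 ε) ≤ L/4` (as `m/(4 ε) ≥ 1`, `m ≤ ε L`), so `16 m ≤ r I`. `L - t = s + 2 ≤ 2 ε L`, `t - i ≥ L - 2 ε L - L/4 ≥ L/2` for
`i < r`, so `L - i = (t - i) + (L - t) ≤ (1 + 4 ε)(t - i)`. `16 m/(r I) ≤ 128 ε/I ≤ 4 ε`, `ρ^r ≤ exp (4 ε r) ≤ exp m`; `8 (4 ε)^m e^m ≤ (32 e ε)^m ≤ (88 ε)^m ≤ (√ε)^m = ε^(m/2)` as `ε ≤ 1/88^2`.
-/

set_option autoImplicit false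

namespace Pool.Agent.H.MP_c90f74_nt.SF

theorem parA (I L m s : ℕ) (ε : ℝ) (hI : 32 ≤ I) (hm : 1 ≤ m) (hε : 0 < ε) (hε1 : ε ≤ 1 / 7744)
    (hmL : (m : ℝ) ≤ ε * L) (h2 : 2 ≤ ε * L) (hs : (s : ℝ) ≤ ε * L) :
    ∃ r t : ℕ, ∃ ρ : ℝ, s + t + 2 = L ∧ 16 * m ≤ r * I ∧ r ≤ t ∧ 0 ≤ ρ ∧
      (∀ i : ℕ, i < r → ((L : ℝ) - i) ≤ ρ * ((t : ℝ) - i)) ∧
      8 * (16 * (m : ℝ) / (r * I)) ^ m * ρ ^ r ≤ ε ^ ((m : ℝ) / 2) := by
  have hmR : (1 : ℝ) ≤ m := by exact_mod_cast hm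
  have hIR : (32 : ℝ) ≤ I := by exact_mod_cast hI
  have hL0 : (0 : ℝ) ≤ L := Nat.cast_nonneg L
  obtain ⟨x, hx⟩ : ∃ x : ℝ, x = m / (4 * ε) := ⟨_, rfl⟩
  have hxe : x * (4 * ε) = m := by
    rw [hx]
    field_simp
  have hx1 : 1 ≤ x := by
    rw [hx, le_div_iff₀ (by positivity)]
    linarith
  have hxL : x ≤ L / 4 := by
    rw [hx, div_le_div_iff₀ (by positivity) (by norm_num)]
    linarith
  have hfl := Nat.floor_le (show (0 : ℝ) ≤ x by linarith)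
  have hfl2 := Nat.lt_floor_add_one x
  have hr1 : 1 ≤ ⌊x⌋₊ := Nat.le_floor (by rw [Nat.cast_one]; exact hx1)
  have hr1R : (1 : ℝ) ≤ (⌊x⌋₊ : ℝ) := by exact_mod_cast hr1
  generalize ⌊x⌋₊ = r at hfl hfl2 hr1 hr1R
  have hr2 : x / 2 ≤ r := by linarith
  have hL1 : (s : ℝ) + 2 ≤ 2 * (ε * L) := by linarith
  have hL2 : 2 * (ε * L) ≤ L / 3872 := by
    have h3 : ε * L ≤ 1 / 7744 * L := mul_le_mul_of_nonneg_right hε1 hL0
    linarith
  have hsL : s + 2 ≤ L := by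
    have h3 : (s : ℝ) + 2 ≤ L := by linarith
    exact_mod_cast h3
  obtain ⟨t, ht⟩ : ∃ t, s + t + 2 = L := ⟨L - s - 2, by omega⟩
  have htR : (s : ℝ) + t + 2 = L := by exact_mod_cast ht
  have hrI : 4 * (m : ℝ) ≤ r * I * ε := by
    have h3 : x / 2 * 32 ≤ r * I := mul_le_mul hr2 hIR (by norm_num) (by positivity)
    have h4 : x / 2 * 32 * ε = 4 * m := by
      rw [← hxe]
      ring
    rw [← h4]
    exact mul_le_mul_of_nonneg_right h3 hε.le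
  have hrI0 : (0 : ℝ) < r * I := by positivity
  refine ⟨r, t, 1 + 4 * ε, ht, ?_, ?_, by positivity, ?_, ?_⟩
  · have h4 : (r : ℝ) * I * ε ≤ r * I * (1 / 4) :=
      mul_le_mul_of_nonneg_left (by linarith) hrI0.le
    have h3 : (16 : ℝ) * m ≤ r * I := by linarith
    exact_mod_cast h3
  · have h3 : (r : ℝ) ≤ t := by linarith
    exact_mod_cast h3
  · intro i hi
    have hiR : (i : ℝ) < r := by exact_mod_cast hi
    have h3 : (L : ℝ) / 2 ≤ t - i := by linarith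
    have h4 : 4 * ε * (L / 2) ≤ 4 * ε * (t - i) := mul_le_mul_of_nonneg_left h3 (by positivity)
    have h5 : (1 + 4 * ε) * ((t : ℝ) - i) = (t - i) + 4 * ε * (t - i) := by ring
    rw [h5]
    have h6 : 4 * ε * (L / 2) = 2 * (ε * L) := by ring
    linarith
  · have h3 : 16 * (m : ℝ) / (r * I) ≤ 4 * ε := by
      rw [div_le_iff₀ hrI0]
      linarith
    have h4 : (16 * (m : ℝ) / (r * I)) ^ m ≤ (4 * ε) ^ m :=
      pow_le_pow_left₀ (by positivity) h3 m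
    have h5 : (1 + 4 * ε) ^ r ≤ Real.exp 1 ^ m := by
      have h6 : 1 + 4 * ε ≤ Real.exp (4 * ε) := by
        have h7 := Real.add_one_le_exp (4 * ε)
        linarith
      have h8 : (1 + 4 * ε) ^ r ≤ Real.exp (4 * ε) ^ r := pow_le_pow_left₀ (by positivity) h6 r
      refine h8.trans ?_
      rw [← Real.exp_nat_mul, ← Real.exp_nat_mul, mul_one]
      refine Real.exp_le_exp.2 ?_
      have h9 : (r : ℝ) * (4 * ε) ≤ x * (4 * ε) := mul_le_mul_of_nonneg_right hfl (by positivity)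
      linarith
    have h6 : (8 : ℝ) ≤ 8 ^ m := by
      have h7 : (8 : ℝ) ^ 1 ≤ 8 ^ m := pow_le_pow_right₀ (by norm_num) hm
      linarith
    have h7 : 8 * (16 * (m : ℝ) / (r * I)) ^ m * (1 + 4 * ε) ^ r ≤
        8 ^ m * (4 * ε) ^ m * Real.exp 1 ^ m := by
      refine mul_le_mul (mul_le_mul h6 h4 (by positivity) (by positivity)) h5 (by positivity)
        (by positivity)
    refine h7.trans ?_
    rw [← mul_pow, ← mul_pow]
    have h8 : ε ^ ((m : ℝ) / 2) = Real.sqrt ε ^ m := by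
      rw [Real.sqrt_eq_rpow, ← Real.rpow_natCast, ← Real.rpow_mul hε.le]
      congr 1
      ring
    rw [h8]
    refine pow_le_pow_left₀ (by positivity) ?_ m
    have h9 : Real.sqrt ε ≤ 1 / 88 := by
      rw [Real.sqrt_le_left (by norm_num)]
      norm_num
      linarith
    have h10 : Real.exp 1 ≤ 2.75 := by
      have := Real.exp_one_lt_d9
      linarith
    have h11 : ε = Real.sqrt ε * Real.sqrt ε := (Real.mul_self_sqrt hε.le).symm
    have h12 : 0 ≤ Real.sqrt ε := Real.sqrt_nonneg ε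
    have h13 : 8 * (4 * ε) * Real.exp 1 ≤ 8 * (4 * ε) * 2.75 :=
      mul_le_mul_of_nonneg_left h10 (by positivity)
    have h14 : 8 * (4 * ε) * 2.75 = 88 * ε := by ring
    have h15 : 88 * ε ≤ Real.sqrt ε := by
      have h16 : 88 * Real.sqrt ε * Real.sqrt ε ≤ 1 * Real.sqrt ε :=
        mul_le_mul_of_nonneg_right (by linarith) h12
      have h17 : 88 * Real.sqrt ε * Real.sqrt ε = 88 * ε := by
        rw [mul_assoc, ← h11]
      linarith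
    linarith

end Pool.Agent.H.MP_c90f74_nt.SF
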