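import Mathlib

/-!
# ParB: `ε ≤ 1 - d`

PROOF. `t = L - s - 2`, `ρ = 4/d`. `t ≥ L - (1 - d) L - 2 = d L - 2 ≥ d L/2`; for `i < m`: `t - i ≥ d L/2 - d L/4 = d L/4`, so `L - i ≤ L ≤ (4/d)(t - i)`.
`8 (16/I)^m (4/d)^m = 8 (64/(d I))^m ≤ (512/(d I))^m ≤ (1/e)^m` as `d I ≥ 1400 ≥ 512 e` (`m ≥ 1`).
-/

set_option autoImplicit false

namespace Pool.Agent.H.MP_c90f74_nt.SF

theorem parB (I L m s : ℕ) (ε d : ℝ) (hd : 0 < d) (hd2 : d ≤ 1 / 2) (hI : 1400 ≤ d * I) (hm : 1 ≤ m)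
    (hL : 4 ≤ d * L) (hε : ε ≤ 1 - d) (hmL : (m : ℝ) ≤ d * L / 4) (hs : (s : ℝ) ≤ ε * L) :
    ∃ t : ℕ, ∃ ρ : ℝ, s + t + 2 = L ∧ 16 * m ≤ m * I ∧ m ≤ t ∧ 0 ≤ ρ ∧
      (∀ i : ℕ, i < m → ((L : ℝ) - i) ≤ ρ * ((t : ℝ) - i)) ∧
      8 * (16 * (m : ℝ) / (m * I)) ^ m * ρ ^ m ≤ Real.exp (-m) := by
  have hL0 : (0 : ℝ) ≤ L := Nat.cast_nonneg L
  have hsL : (s : ℝ) ≤ (1 - d) * L := hs.trans (mul_le_mul_of_nonneg_right hε hL0)
  have hs2 : s + 2 ≤ L := by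
    have h1 : ((s + 2 : ℕ) : ℝ) ≤ L := by
      push_cast
      nlinarith
    exact_mod_cast h1
  obtain ⟨t, ht⟩ : ∃ t : ℕ, s + t + 2 = L := ⟨L - s - 2, by omega⟩
  have htR : (s : ℝ) + t + 2 = L := by exact_mod_cast ht
  have ht2 : d * L / 2 ≤ t := by nlinarith
  have hI0 : (0 : ℝ) < I := by
    by_contra h
    have h1 : (I : ℝ) = 0 := le_antisymm (not_lt.1 h) (Nat.cast_nonneg I)
    rw [h1, mul_zero] at hI
    linarith
  have hm0 : (0 : ℝ) < m := by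
    have h1 : (1 : ℝ) ≤ m := by exact_mod_cast hm
    linarith
  refine ⟨t, 4 / d, ht, ?_, ?_, by positivity, ?_, ?_⟩
  · have h1 : 16 ≤ I := by
      have h2 : (16 : ℝ) ≤ I := by nlinarith
      exact_mod_cast h2
    rw [mul_comm]
    exact Nat.mul_le_mul_left m h1
  · have h1 : (m : ℝ) ≤ t := by linarith
    exact_mod_cast h1
  · intro i hi
    have hi' : (i : ℝ) < m := by exact_mod_cast hi
    have hi0 : (0 : ℝ) ≤ i := Nat.cast_nonneg i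
    have h1 : d * L / 4 ≤ (t : ℝ) - i := by linarith
    have h2 : (L : ℝ) = 4 / d * (d * L / 4) := by
      field_simp
    have h3 : 4 / d * (d * L / 4) ≤ 4 / d * ((t : ℝ) - i) :=
      mul_le_mul_of_nonneg_left h1 (by positivity)
    linarith
  · have e1 : 16 * (m : ℝ) / (m * I) = 16 / I := by
      rw [mul_comm (16 : ℝ), mul_div_mul_left _ _ hm0.ne']
    have h8 : (8 : ℝ) ≤ 8 ^ m := by
      calc (8 : ℝ) = 8 ^ 1 := (pow_one _).symm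
        _ ≤ 8 ^ m := pow_le_pow_right₀ (by norm_num) hm
    have e2 : (8 : ℝ) ^ m * (16 / I) ^ m * (4 / d) ^ m = (512 / (d * I)) ^ m := by
      rw [← mul_pow, ← mul_pow]
      congr 1
      field_simp
      norm_num
    have h3 : (512 : ℝ) / (d * I) ≤ Real.exp (-1) := by
      rw [Real.exp_neg, div_le_iff₀ (by positivity), inv_mul_eq_div, le_div_iff₀ (Real.exp_pos 1)]
      have h4 := Real.exp_one_lt_d9
      nlinarith
    have e3 : Real.exp (-(m : ℝ)) = Real.exp (-1) ^ m := by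
      rw [← Real.exp_nat_mul]
      congr 1
      ring
    rw [e1, e3]
    calc 8 * (16 / (I : ℝ)) ^ m * (4 / d) ^ m ≤ 8 ^ m * (16 / (I : ℝ)) ^ m * (4 / d) ^ m := by
          gcongr
      _ = (512 / (d * I)) ^ m := e2
      _ ≤ Real.exp (-1) ^ m := pow_le_pow_left₀ (by positivity) h3 m

end Pool.Agent.H.MP_c90f74_nt.SF
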