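import Mathlib

/-!
# Avg: averaging over the subsets

PROOF. `|J| C(t, r) ≤ ∑_{j ∈ J} C(|f j|, r) = ∑_{K ∈ powersetCard r (Icc 1 L)} |{j ∈ J : K ⊆ f j}| ≤ C(L, r) B` (double counting, `Finset.card_powersetCard`, `Nat.choose_mono`), and
`C(L, r) ≤ ρ^r C(t, r)` since `C(n, r) r! = n (n-1) ... (n-r+1)` (`Nat.descFactorial`; induction on `r`: `(L.descFactorial i) ≤ ρ^i (t.descFactorial i)` for `i ≤ r`); `C(t, r) > 0`.
-/

set_option autoImplicit false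

namespace Pool.Agent.H.MP_c90f74_nt.SF

open Finset

theorem Avg_desc (L r t : ℕ) (ρ : ℝ) (hrt : r ≤ t) (htL : t ≤ L)
    (hρ : ∀ i : ℕ, i < r → ((L : ℝ) - i) ≤ ρ * ((t : ℝ) - i)) :
    ∀ i : ℕ, i ≤ r → ((L.descFactorial i : ℕ) : ℝ) ≤ ρ ^ i * ((t.descFactorial i : ℕ) : ℝ) := by
  intro i
  induction i with
  | zero => intro _; simp
  | succ i ih =>
    intro hi
    have h1 := ih (by omega)
    rw [Nat.descFactorial_succ, Nat.descFactorial_succ]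
    have hiL : i ≤ L := by omega
    have hit : i ≤ t := by omega
    rw [Nat.cast_mul, Nat.cast_mul, Nat.cast_sub hiL, Nat.cast_sub hit]
    have h2 := hρ i (by omega)
    have h3 : (0 : ℝ) ≤ (L : ℝ) - i := by
      have : (i : ℝ) ≤ L := by exact_mod_cast hiL
      linarith
    calc ((L : ℝ) - i) * ((L.descFactorial i : ℕ) : ℝ)
        ≤ (ρ * ((t : ℝ) - i)) * (ρ ^ i * ((t.descFactorial i : ℕ) : ℝ)) := by
          apply mul_le_mul h2 h1 (by positivity)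
          linarith
      _ = ρ ^ (i + 1) * (((t : ℝ) - i) * ((t.descFactorial i : ℕ) : ℝ)) := by ring

theorem Avg_choose (L r t : ℕ) (ρ : ℝ) (hrt : r ≤ t) (htL : t ≤ L)
    (hρ : ∀ i : ℕ, i < r → ((L : ℝ) - i) ≤ ρ * ((t : ℝ) - i)) :
    ((L.choose r : ℕ) : ℝ) ≤ ρ ^ r * ((t.choose r : ℕ) : ℝ) := by
  have h := Avg_desc L r t ρ hrt htL hρ r le_rfl
  rw [Nat.descFactorial_eq_factorial_mul_choose, Nat.descFactorial_eq_factorial_mul_choose,
    Nat.cast_mul, Nat.cast_mul] at h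
  have hf : (0 : ℝ) < ((r.factorial : ℕ) : ℝ) := by exact_mod_cast Nat.factorial_pos r
  have h' : ((r.factorial : ℕ) : ℝ) * ((L.choose r : ℕ) : ℝ)
      ≤ ((r.factorial : ℕ) : ℝ) * (ρ ^ r * ((t.choose r : ℕ) : ℝ)) := by
    calc ((r.factorial : ℕ) : ℝ) * ((L.choose r : ℕ) : ℝ)
        ≤ ρ ^ r * (((r.factorial : ℕ) : ℝ) * ((t.choose r : ℕ) : ℝ)) := h
      _ = ((r.factorial : ℕ) : ℝ) * (ρ ^ r * ((t.choose r : ℕ) : ℝ)) := by ring
  exact le_of_mul_le_mul_left h' hf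

theorem Avg_double (J : Finset ℕ) (L r : ℕ) (f : ℕ → Finset ℕ) (hf : ∀ j ∈ J, f j ⊆ Icc 1 L) :
    ∑ j ∈ J, ((f j).card.choose r)
      = ∑ K ∈ powersetCard r (Icc 1 L), (J.filter (fun j => K ⊆ f j)).card := by
  have h := Finset.sum_card_bipartiteAbove_eq_sum_card_bipartiteBelow
    (s := J) (t := powersetCard r (Icc 1 L)) (fun j K => K ⊆ f j)
  have h1 : ∀ j ∈ J, (f j).card.choose r
      = ((powersetCard r (Icc 1 L)).bipartiteAbove (fun j K => K ⊆ f j) j).card := by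
    intro j hj
    rw [← Finset.card_powersetCard]
    congr 1
    ext K
    simp only [Finset.bipartiteAbove, Finset.mem_filter, Finset.mem_powersetCard]
    constructor
    · rintro ⟨h1, h2⟩
      exact ⟨⟨h1.trans (hf j hj), h2⟩, h1⟩
    · rintro ⟨⟨_, h2⟩, h1⟩
      exact ⟨h1, h2⟩
  rw [Finset.sum_congr rfl h1, h]
  rfl

theorem avg (J : Finset ℕ) (L r t : ℕ) (f : ℕ → Finset ℕ) (hf : ∀ j ∈ J, f j ⊆ Icc 1 L ∧ t ≤ (f j).card)
    (B ρ : ℝ) (hB0 : 0 ≤ B)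
    (hB : ∀ K ⊆ Icc 1 L, K.card = r → ((J.filter (fun j => K ⊆ f j)).card : ℝ) ≤ B)
    (hrt : r ≤ t) (htL : t ≤ L) (hρ : ∀ i : ℕ, i < r → ((L : ℝ) - i) ≤ ρ * ((t : ℝ) - i)) (hρ0 : 0 ≤ ρ) :
    (J.card : ℝ) ≤ B * ρ ^ r := by
  have hc := Avg_choose L r t ρ hrt htL hρ
  have hd := Avg_double J L r f (fun j hj => (hf j hj).1)
  have hpos : (0 : ℝ) < ((t.choose r : ℕ) : ℝ) := by exact_mod_cast Nat.choose_pos hrt
  have h1 : (J.card : ℝ) * ((t.choose r : ℕ) : ℝ) ≤ ((∑ j ∈ J, ((f j).card.choose r) : ℕ) : ℝ) := by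
    have : J.card * t.choose r ≤ ∑ j ∈ J, ((f j).card.choose r) := by
      rw [← smul_eq_mul, ← Finset.sum_const]
      exact Finset.sum_le_sum (fun j hj => Nat.choose_le_choose r (hf j hj).2)
    exact_mod_cast this
  have h2 : ((∑ j ∈ J, ((f j).card.choose r) : ℕ) : ℝ) ≤ ((L.choose r : ℕ) : ℝ) * B := by
    rw [hd, Nat.cast_sum]
    have h3 : ∀ K ∈ powersetCard r (Icc 1 L), ((J.filter (fun j => K ⊆ f j)).card : ℝ) ≤ B := by
      intro K hK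
      rw [Finset.mem_powersetCard] at hK
      exact hB K hK.1 hK.2
    have h4 := Finset.sum_le_card_nsmul _ _ B h3
    rw [Finset.card_powersetCard, Nat.card_Icc, nsmul_eq_mul] at h4
    simpa using h4
  have h5 : ((L.choose r : ℕ) : ℝ) * B ≤ (ρ ^ r * ((t.choose r : ℕ) : ℝ)) * B :=
    mul_le_mul_of_nonneg_right hc hB0
  have h6 : (J.card : ℝ) * ((t.choose r : ℕ) : ℝ) ≤ (B * ρ ^ r) * ((t.choose r : ℕ) : ℝ) := by
    calc (J.card : ℝ) * ((t.choose r : ℕ) : ℝ) ≤ (ρ ^ r * ((t.choose r : ℕ) : ℝ)) * B :=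
          h1.trans (h2.trans h5)
      _ = (B * ρ ^ r) * ((t.choose r : ℕ) : ℝ) := by ring
  exact le_of_mul_le_mul_right h6 hpos

end Pool.Agent.H.MP_c90f74_nt.SF
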