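import Pool.Agent.H.MP_c90f74_nt.SF.MonD
import Pool.Agent.H.MP_c90f74_nt.SF.Sym
import Pool.Agent.H.MP_c90f74_nt.SF.Ord

/-!
# Cnt: the sieve bound for a set of exponents

PROOF. `Z` = the set on the left (in `range H`), `z = y^(2^I)`, `P = PP y z L`, `K` a set of `r` exponents. (1) For `p ∈ P`: the classes `(2^k - x - 1) mod p`, `k ∈ K`, are `r` distinct classes
(`ord_inj`; work with `ZMod p` and `.val`, or take `(2^k + (p - (x + 1) % p)) % p`) and none of them is the class of a `j ∈ Z` (`p ∣ (x + 1 + j) - 2^k`, `2^k < x + 1 + j` for `k ∈ K ⊆ KK`),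
so `(Z.image (· % p)).card + r ≤ p`. (2) `mont`. (3) `g p = r/(p - r)` is in `[0, 1]` since `p > y ≥ L^3 ≥ 2 L ≥ 2 r` (`r ≤ L` as `K ⊆ Icc 1 L`) and `g p ≥ r/p`, so
`G = ∑ g ≥ r (I/4 - 1) ≥ r I / 8 ≥ 2 m` by `hw`, `ord_sum` (`I ≥ 8`). (4) `sym_ge`: `∑_T ∏ g ≥ (G/(2m))^m ≥ (r I/(16 m))^m`. Divide.
-/

set_option autoImplicit false

namespace Pool.Agent.H.MP_c90f74_nt.SF

open Finset

private theorem Cnt_class {x L y z r p : ℕ} (hy : 2 ≤ y) (K Z : Finset ℕ) (hK : K ⊆ Icc 1 L)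
    (hKr : K.card = r) (hp : p ∈ PP y z L) (hpp : p.Prime)
    (hZ : ∀ j ∈ Z, K ⊆ KK y z L (x + 1 + j)) :
    (Z.image (fun n => n % p)).card + r ≤ p := by
  classical
  have hp0 : 0 < p := hpp.pos
  have hc : ∀ k : ℕ, (2 ^ k + (p - (x + 1) % p)) % p + (x + 1) ≡ 2 ^ k [MOD p] := by
    intro k
    have h1 : (2 ^ k + (p - (x + 1) % p)) % p + (x + 1) ≡
        2 ^ k + (p - (x + 1) % p) + (x + 1) % p [MOD p] :=
      Nat.ModEq.add (Nat.mod_modEq _ _) (Nat.mod_modEq _ _).symm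
    have h2 : 2 ^ k + (p - (x + 1) % p) + (x + 1) % p = 2 ^ k + p := by
      have := Nat.mod_lt (x + 1) hp0
      omega
    rw [h2] at h1
    refine h1.trans ?_
    show (2 ^ k + p) % p = 2 ^ k % p
    exact Nat.add_mod_right _ _
  have hinj : Set.InjOn (fun k : ℕ => (2 ^ k + (p - (x + 1) % p)) % p) (K : Set ℕ) := by
    intro k hk k' hk' he
    have he' : (2 ^ k + (p - (x + 1) % p)) % p = (2 ^ k' + (p - (x + 1) % p)) % p := he
    have h2 := (hc k).symm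
    rw [he'] at h2
    have h1 : 2 ^ k ≡ 2 ^ k' [MOD p] := h2.trans (hc k')
    exact ord_inj hy hp (hK (Finset.mem_coe.1 hk)) (hK (Finset.mem_coe.1 hk')) h1
  have hcard : (K.image (fun k : ℕ => (2 ^ k + (p - (x + 1) % p)) % p)).card = r := by
    rw [Finset.card_image_of_injOn hinj, hKr]
  have hdis : Disjoint (Z.image (fun n => n % p))
      (K.image (fun k : ℕ => (2 ^ k + (p - (x + 1) % p)) % p)) := by
    rw [Finset.disjoint_left]
    intro a ha hb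
    obtain ⟨j, hj, hja⟩ := Finset.mem_image.1 ha
    obtain ⟨k, hk, hka⟩ := Finset.mem_image.1 hb
    have h1 := hZ j hj hk
    unfold KK at h1
    rw [Finset.mem_filter] at h1
    obtain ⟨-, h2, h3⟩ := h1
    refine h3 p hp ?_
    have h4 : 2 ^ k ≡ x + 1 + j [MOD p] := by
      have h5 := (hc k).symm
      rw [hka, ← hja] at h5
      refine h5.trans ?_
      have h6 : j % p + (x + 1) ≡ j + (x + 1) [MOD p] :=
        Nat.ModEq.add_right _ (Nat.mod_modEq _ _)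
      rw [add_comm (x + 1) j]
      exact h6
    exact (Nat.modEq_iff_dvd' h2.le).1 h4
  rw [← hcard, ← Finset.card_union_of_disjoint hdis]
  have hsub : Z.image (fun n => n % p) ∪
      K.image (fun k : ℕ => (2 ^ k + (p - (x + 1) % p)) % p) ⊆ range p := by
    intro a ha
    rcases Finset.mem_union.1 ha with h | h
    · obtain ⟨j, -, rfl⟩ := Finset.mem_image.1 h
      exact Finset.mem_range.2 (Nat.mod_lt _ hp0)
    · obtain ⟨k, -, rfl⟩ := Finset.mem_image.1 h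
      exact Finset.mem_range.2 (Nat.mod_lt _ hp0)
  exact (Finset.card_le_card hsub).trans (le_of_eq (Finset.card_range p))

open Classical in
theorem cnt (x H L y I m r : ℕ) (hL : 2 ≤ L) (hy : L ^ 3 ≤ y) (hI : 8 ≤ I)
    (hw : (I : ℝ) / 4 ≤ ∑ p ∈ (Ioc y (y ^ (2 ^ I))).filter Nat.Prime, 1 / (p : ℝ))
    (hm : 1 ≤ m) (hmr : 16 * m ≤ r * I) (hH : (y ^ (2 ^ I)) ^ (2 * m) ≤ H)
    (K : Finset ℕ) (hK : K ⊆ Icc 1 L) (hKr : K.card = r) :
    (((range H).filter (fun j => K ⊆ KK y (y ^ (2 ^ I)) L (x + 1 + j))).card : ℝ) ≤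
      8 * H * (16 * m / (r * I)) ^ m := by
  generalize hz : y ^ (2 ^ I) = z at hw hH ⊢
  generalize hZdef : (range H).filter (fun j => K ⊆ KK y z L (x + 1 + j)) = Z
  have hL3 : 4 * L ≤ L ^ 3 := by
    have h1 : L ^ 3 = L * L * L := by ring
    rw [h1]
    have h2 : 2 * 2 ≤ L * L := Nat.mul_le_mul hL hL
    exact Nat.mul_le_mul_right L h2
  have hy8 : 8 ≤ y := by omega
  have hy2 : 2 ≤ y := by omega
  have hrL : r ≤ L := by
    rw [← hKr]
    refine (Finset.card_le_card hK).trans ?_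
    rw [Nat.card_Icc]
    omega
  have hz1 : 1 ≤ z := by
    rw [← hz]
    exact Nat.one_le_pow _ _ (by omega)
  have hpP : ∀ p ∈ PP y z L, p.Prime ∧ y < p ∧ p ≤ z := by
    intro p hp
    unfold PP at hp
    rw [Finset.mem_filter, Finset.mem_Ioc] at hp
    exact ⟨hp.2.1, hp.1.1, hp.1.2⟩
  have hZr : Z ⊆ range H := by
    rw [← hZdef]
    exact Finset.filter_subset _ _
  have hZm : ∀ j ∈ Z, K ⊆ KK y z L (x + 1 + j) := by
    intro j hj
    rw [← hZdef, Finset.mem_filter] at hj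
    exact hj.2
  have h2r : ∀ p ∈ PP y z L, 2 * r < p := by
    intro p hp
    have := (hpP p hp).2.1
    omega
  have hM := mont Z (PP y z L) H m r z hZr
    (fun p hp => ⟨(hpP p hp).1, by have := h2r p hp; omega, (hpP p hp).2.2,
      Cnt_class (x := x) hy2 K Z hK hKr hp (hpP p hp).1 hZm⟩) hz1 hH
  have hg : ∀ p ∈ PP y z L, 0 ≤ (r : ℝ) / ((p : ℝ) - r) ∧ (r : ℝ) / ((p : ℝ) - r) ≤ 1 := by
    intro p hp
    have h1 : (2 : ℝ) * r < p := by exact_mod_cast h2r p hp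
    have h2 : (0 : ℝ) ≤ r := Nat.cast_nonneg r
    have h3 : (0 : ℝ) < (p : ℝ) - r := by linarith
    refine ⟨div_nonneg h2 h3.le, ?_⟩
    rw [div_le_one h3]
    linarith
  have hG1 : (r : ℝ) * ∑ p ∈ PP y z L, 1 / (p : ℝ) ≤
      ∑ p ∈ PP y z L, (r : ℝ) / ((p : ℝ) - r) := by
    rw [Finset.mul_sum]
    refine Finset.sum_le_sum fun p hp => ?_
    have h1 : (2 : ℝ) * r < p := by exact_mod_cast h2r p hp
    have h2 : (0 : ℝ) ≤ r := Nat.cast_nonneg r
    have h3 : (0 : ℝ) < (p : ℝ) - r := by linarith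
    rw [mul_one_div]
    exact div_le_div_of_nonneg_left h2 h3 (by linarith)
  have hS : (I : ℝ) / 8 ≤ ∑ p ∈ PP y z L, 1 / (p : ℝ) := by
    have h1 := ord_sum y z L (by omega) hy
    have h2 : (8 : ℝ) ≤ I := by exact_mod_cast hI
    linarith
  have hr0 : (0 : ℝ) ≤ r := Nat.cast_nonneg r
  have hmr' : (16 : ℝ) * m ≤ r * I := by exact_mod_cast hmr
  have hm1 : (1 : ℝ) ≤ m := by exact_mod_cast hm
  have hrI : (0 : ℝ) < r * I := by linarith
  have hG2 : (r : ℝ) * I / 8 ≤ ∑ p ∈ PP y z L, (r : ℝ) / ((p : ℝ) - r) := by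
    have h1 : (r : ℝ) * (I / 8) ≤ r * ∑ p ∈ PP y z L, 1 / (p : ℝ) :=
      mul_le_mul_of_nonneg_left hS hr0
    have h2 : (r : ℝ) * I / 8 = r * (I / 8) := by ring
    rw [h2]
    exact h1.trans hG1
  have hsym := sym_ge (PP y z L) (fun p => (r : ℝ) / ((p : ℝ) - r)) m hm hg (by linarith)
  have hbase : (r : ℝ) * I / (16 * m) ≤
      (∑ p ∈ PP y z L, (r : ℝ) / ((p : ℝ) - r)) / (2 * m) := by
    have h1 : (r : ℝ) * I / (16 * m) = (r * I / 8) / (2 * m) := by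
      rw [div_div]
      congr 1
      ring
    rw [h1]
    exact div_le_div_of_nonneg_right hG2 (by linarith)
  have hpow : ((r : ℝ) * I / (16 * m)) ^ m ≤
      ∑ T ∈ (PP y z L).powersetCard m, ∏ p ∈ T, (r : ℝ) / ((p : ℝ) - r) :=
    (pow_le_pow_left₀ (div_nonneg hrI.le (by linarith)) hbase m).trans hsym
  have hfin : (Z.card : ℝ) * ((r : ℝ) * I / (16 * m)) ^ m ≤ 8 * H :=
    (mul_le_mul_of_nonneg_left hpow (Nat.cast_nonneg _)).trans hM
  have hpos : (0 : ℝ) < (r : ℝ) * I / (16 * m) := div_pos hrI (by linarith)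
  have hinv : ((16 : ℝ) * m / (r * I)) ^ m = (((r : ℝ) * I / (16 * m)) ^ m)⁻¹ := by
    rw [← inv_pow, inv_div]
  rw [hinv, ← div_eq_mul_inv, le_div_iff₀ (pow_pos hpos m)]
  exact hfin

end Pool.Agent.H.MP_c90f74_nt.SF
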