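import Pool.Agent.H.MP_c90f74_nt.SF.Defs

/-!
# Good: the exponents which are not counted by `smallCount` are in `KK`

PROOF. `L = Nat.log 2 x + 1`. Every `k ∈ [1, L - 1]` has `2^k ≤ x < n`. If such a `k` is not counted by `smallCount ζ n` and not in `KK y z L n`, then some `p ∈ PP y z L` divides `n - 2^k`, `p ≤ z ≤ ζ`,
so `p = n - 2^k` (`p ≤ n - 2^k` as `n - 2^k > 0`) and `n - 2^k ≤ z`. There is at most one such `k`: for `k < k'` with `n - 2^k ≤ z`: `2^k ≥ n - z > x - z ≥ z` and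
`2^(k') ≥ 2 * 2^k`, so `n > 2^(k') ≥ 2^k + 2^k > 2^k + z ≥ n`. So `L - 1 ≤ |KK| + smallCount + 1` (the set in `smallCount` is finite: `k < n`).
-/

set_option autoImplicit false

namespace Pool.Agent.H.MP_c90f74_nt.SF

open Finset

theorem good_le (x n y z : ℕ) (ζ : ℝ) (hx : 1 ≤ x) (hn : x < n) (hz : 2 * z ≤ x) (hζ : (z : ℝ) ≤ ζ) :
    Nat.log 2 x + 1 ≤ (KK y z (Nat.log 2 x + 1) n).card + smallCount ζ n + 2 := by
  classical
  obtain ⟨l, hl⟩ : ∃ l, l = Nat.log 2 x := ⟨_, rfl⟩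
  rw [← hl]
  have hpow : ∀ k, k ≤ l → 2 ^ k ≤ x := fun k hk =>
    (Nat.pow_le_pow_right two_pos hk).trans (by
      rw [hl]
      exact Nat.pow_log_le_self 2 (by omega))
  obtain ⟨S, hS⟩ : ∃ S : Set ℕ, S = {k : ℕ | 1 ≤ k ∧ 2 ^ k < n ∧
      ∃ p : ℕ, p.Prime ∧ (p : ℝ) ≤ ζ ∧ p ∣ n - 2 ^ k ∧ p < n - 2 ^ k} := ⟨_, rfl⟩
  have hfin : S.Finite := by
    refine (Set.finite_lt_nat n).subset ?_
    rw [hS]
    rintro k ⟨-, h, -⟩
    exact Nat.lt_two_pow_self.trans h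
  have hcard : smallCount ζ n = hfin.toFinset.card := by
    unfold smallCount
    rw [← hS]
    exact Set.ncard_eq_toFinset_card S hfin
  have key : ∀ k, 1 ≤ k → k ≤ l → k ∉ KK y z (l + 1) n → k ∉ S → n - 2 ^ k ≤ z := by
    intro k h1 h2 h3 h4
    by_contra hcon
    push Not at hcon
    apply h3
    unfold KK
    refine mem_filter.2 ⟨mem_Icc.2 ⟨h1, by omega⟩, lt_of_le_of_lt (hpow k h2) hn,
      fun p hp hd => ?_⟩
    apply h4
    unfold PP at hp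
    obtain ⟨hp1, hp2, -⟩ := mem_filter.1 hp
    have hpz := (mem_Ioc.1 hp1).2
    rw [hS]
    exact ⟨h1, lt_of_le_of_lt (hpow k h2) hn, p, hp2, (Nat.cast_le.2 hpz).trans hζ, hd,
      lt_of_le_of_lt hpz hcon⟩
  obtain ⟨R, hR⟩ : ∃ R : Finset ℕ,
      R = (Icc 1 l).filter (fun k => k ∉ KK y z (l + 1) n ∧ k ∉ S) := ⟨_, rfl⟩
  have hmem : ∀ k, k ∈ R ↔ k ∈ Icc 1 l ∧ k ∉ KK y z (l + 1) n ∧ k ∉ S := fun k => by
    rw [hR, mem_filter]
  have hlt : ∀ a b, a ∈ R → b ∈ R → ¬ a < b := by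
    intro a b ha hb hab
    obtain ⟨ha1, ha2, ha3⟩ := (hmem a).1 ha
    obtain ⟨hb1, -, -⟩ := (hmem b).1 hb
    have h1 := key a (mem_Icc.1 ha1).1 (mem_Icc.1 ha1).2 ha2 ha3
    have h2 := hpow b (mem_Icc.1 hb1).2
    have h3 := hpow a (mem_Icc.1 ha1).2
    have h4 : 2 ^ (a + 1) ≤ 2 ^ b := Nat.pow_le_pow_right two_pos hab
    rw [pow_succ] at h4
    omega
  have hone : R.card ≤ 1 := by
    rw [card_le_one]
    intro a ha b hb
    rcases lt_trichotomy a b with h | h | h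
    · exact (hlt a b ha hb h).elim
    · exact h
    · exact (hlt b a hb ha h).elim
  have hsub : Icc 1 l ⊆ (KK y z (l + 1) n ∪ hfin.toFinset) ∪ R := by
    intro k hk
    by_cases h1 : k ∈ KK y z (l + 1) n
    · exact mem_union_left _ (mem_union_left _ h1)
    by_cases h2 : k ∈ S
    · exact mem_union_left _ (mem_union_right _ (hfin.mem_toFinset.2 h2))
    · exact mem_union_right _ ((hmem k).2 ⟨hk, h1, h2⟩)
  have h1 := card_le_card hsub
  have h2 := card_union_le (KK y z (l + 1) n ∪ hfin.toFinset) R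
  have h3 := card_union_le (KK y z (l + 1) n) hfin.toFinset
  rw [Nat.card_Icc] at h1
  rw [hcard]
  omega

end Pool.Agent.H.MP_c90f74_nt.SF
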