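import Pool.Agent.H.MP_c90f74_nt.SF.Cnt
import Pool.Agent.H.MP_c90f74_nt.SF.Avg
import Pool.Agent.H.MP_c90f74_nt.SF.Good

/-!
# Core: the bound with the parameters

PROOF. `n = x + 1 + j`, `j ∈ range H` (bijection with `{n | x < n ∧ n ≤ x + H}`; the set on the left is finite). `J` = the `j` with `smallCount ζ n + t + 2 ≤ L`; `f j = KK y z L (x + 1 + j) ⊆ Icc 1 L`;
`good_le` gives `t ≤ |f j|`; `avg` with `B` from `cnt`.
-/

set_option autoImplicit false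

namespace Pool.Agent.H.MP_c90f74_nt.SF

open Finset

theorem core (x H L y I m r t : ℕ) (ζ ρ : ℝ) (hLx : L = Nat.log 2 x + 1) (hL : 2 ≤ L) (hy : L ^ 3 ≤ y) (hI : 8 ≤ I)
    (hw : (I : ℝ) / 4 ≤ ∑ p ∈ (Ioc y (y ^ (2 ^ I))).filter Nat.Prime, 1 / (p : ℝ))
    (hm : 1 ≤ m) (hmr : 16 * m ≤ r * I) (hH : (y ^ (2 ^ I)) ^ (2 * m) ≤ H) (hx : 2 * y ^ (2 ^ I) ≤ x)
    (hζ : ((y ^ (2 ^ I) : ℕ) : ℝ) ≤ ζ) (hrt : r ≤ t) (htL : t ≤ L) (hρ0 : 0 ≤ ρ)
    (hρ : ∀ i : ℕ, i < r → ((L : ℝ) - i) ≤ ρ * ((t : ℝ) - i)) :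
    ({n : ℕ | x < n ∧ n ≤ x + H ∧ smallCount ζ n + t + 2 ≤ L}.ncard : ℝ) ≤
      8 * H * (16 * m / (r * I)) ^ m * ρ ^ r := by
  classical
  have hL3 : 2 ^ 3 ≤ L ^ 3 := Nat.pow_le_pow_left hL 3
  have hy1 : 1 ≤ y := by omega
  have hz1 : 1 ≤ y ^ (2 ^ I) := Nat.one_le_pow _ _ hy1
  have hx1 : 1 ≤ x := by omega
  have hIr : (0 : ℝ) ≤ (16 * m / (r * I) : ℝ) := by positivity
  have hB0 : (0 : ℝ) ≤ 8 * H * (16 * m / (r * I)) ^ m := by positivity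
  obtain ⟨J, hJ⟩ : ∃ J : Finset ℕ, J = (range H).filter
    (fun j => smallCount ζ (x + 1 + j) + t + 2 ≤ L) := ⟨_, rfl⟩
  have hset : {n : ℕ | x < n ∧ n ≤ x + H ∧ smallCount ζ n + t + 2 ≤ L} ⊆
      ((J.image (fun j => x + 1 + j) : Finset ℕ) : Set ℕ) := by
    rintro n ⟨h1, h2, h3⟩
    rw [mem_coe, mem_image]
    refine ⟨n - (x + 1), ?_, by omega⟩
    rw [hJ, mem_filter, mem_range]
    refine ⟨by omega, ?_⟩
    have h4 : x + 1 + (n - (x + 1)) = n := by omega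
    rw [h4]
    exact h3
  have hcard : {n : ℕ | x < n ∧ n ≤ x + H ∧ smallCount ζ n + t + 2 ≤ L}.ncard ≤ J.card := by
    calc {n : ℕ | x < n ∧ n ≤ x + H ∧ smallCount ζ n + t + 2 ≤ L}.ncard
        ≤ ((J.image (fun j => x + 1 + j) : Finset ℕ) : Set ℕ).ncard :=
          Set.ncard_le_ncard hset (Finset.finite_toSet _)
      _ = (J.image (fun j => x + 1 + j)).card := Set.ncard_coe_finset _
      _ ≤ J.card := card_image_le
  have hf : ∀ j ∈ J, KK y (y ^ (2 ^ I)) L (x + 1 + j) ⊆ Icc 1 L ∧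
      t ≤ (KK y (y ^ (2 ^ I)) L (x + 1 + j)).card := by
    intro j hj
    refine ⟨?_, ?_⟩
    · unfold KK
      exact filter_subset _ _
    · rw [hJ, mem_filter] at hj
      have h1 := good_le x (x + 1 + j) y (y ^ (2 ^ I)) ζ hx1 (by omega) hx hζ
      rw [← hLx] at h1
      omega
  have hB : ∀ K ⊆ Icc 1 L, K.card = r →
      ((J.filter (fun j => K ⊆ KK y (y ^ (2 ^ I)) L (x + 1 + j))).card : ℝ) ≤
        8 * H * (16 * m / (r * I)) ^ m := by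
    intro K hK hKr
    refine le_trans ?_ (cnt x H L y I m r hL hy hI hw hm hmr hH K hK hKr)
    have h1 : (J.filter (fun j => K ⊆ KK y (y ^ (2 ^ I)) L (x + 1 + j))).card ≤
        ((range H).filter (fun j => K ⊆ KK y (y ^ (2 ^ I)) L (x + 1 + j))).card := by
      refine card_le_card ?_
      intro j hj
      rw [mem_filter] at hj ⊢
      rw [hJ, mem_filter] at hj
      exact ⟨hj.1.1, hj.2⟩
    exact_mod_cast h1
  have h1 := avg J L r t (fun j => KK y (y ^ (2 ^ I)) L (x + 1 + j)) hf _ ρ hB0 hB hrt htL hρ hρ0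
  refine le_trans ?_ h1
  exact_mod_cast hcard

end Pool.Agent.H.MP_c90f74_nt.SF
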