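import Pool.Agent.H.MP_711652_nt.CH.LsDefs

/-!
# MP_c90f74_nt, SF: integers `n` for which few of the numbers `n - 2^k` have a small prime factor

PROOF of `Main` (paper). `L = Nat.log 2 x + 1`, `y = L^3`, `z = y^(2^I)`, `P = PP y z L` the primes of `(y, z]` with `ord_p 2 ≥ L`
(`Win`: the sum of `1/p` over `(y, z]` is at least `I/4`; `Ord`: the primes left out contribute at most `1`; the powers `2^k`, `1 ≤ k ≤ L`, are
distinct modulo `p ∈ P`). For a set `K` of `r` exponents, the `n ∈ (x, x + H]` such that no `p ∈ P` divides `n - 2^k`, `k ∈ K`, avoid `r` classes modulo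
each `p ∈ P`. Montgomery's sieve (`MonA`, `MonB`, `MonC`, `MonD`) with the products of `m` primes (`z^(2m) ≤ H`) and `Sym` bound their number by
`8 H (16 m / (r I))^m` (`Cnt`). Averaging over the `r`-subsets `K` of `KK y z L n` (`Avg`) bounds the number of `n` with `|KK y z L n| ≥ t` by
`8 H (16 m / (r I))^m ρ^r`, `ρ ≥ (L - i) / (t - i)` (`Core`). `Good`: `L ≤ |KK| + smallCount + 2`. `ParA`: `r = ⌊m/(4 ε)⌋`, `ParB`: `r = m`.
-/

set_option autoImplicit false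

namespace Pool.Agent.H.MP_c90f74_nt.SF

open Finset

/-- The number of the `k ≥ 1`, `2^k < n`, such that `n - 2^k` is divisible by a prime `p ≤ z` with `p < n - 2^k`. -/
noncomputable def smallCount (z : ℝ) (n : ℕ) : ℕ :=
  {k : ℕ | 1 ≤ k ∧ 2 ^ k < n ∧ ∃ p : ℕ, p.Prime ∧ (p : ℝ) ≤ z ∧ p ∣ n - 2 ^ k ∧ p < n - 2 ^ k}.ncard

open Classical in
/-- The primes of `(y, z]` which divide no `2^h - 1`, `1 ≤ h < L`. -/
noncomputable def PP (y z L : ℕ) : Finset ℕ :=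
  (Ioc y z).filter (fun p => p.Prime ∧ ∀ h : ℕ, 1 ≤ h → h < L → ¬ p ∣ 2 ^ h - 1)

open Classical in
/-- The `k ∈ [1, L]`, `2^k < n`, such that no `p ∈ PP y z L` divides `n - 2^k`. -/
noncomputable def KK (y z L n : ℕ) : Finset ℕ :=
  (Icc 1 L).filter (fun k => 2 ^ k < n ∧ ∀ p ∈ PP y z L, ¬ p ∣ n - 2 ^ k)

/-- The sum over the reduced fractions `u / q` of `|∑_{n ∈ Z} e(n (u/q + β))|^2`. -/
noncomputable def FF (Z : Finset ℕ) (q : ℕ) (β : ℝ) : ℝ :=
  ∑ u ∈ (range q).filter (fun u => Nat.Coprime u q),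
    ‖∑ n ∈ Z, MP_711652_nt.CH.ee ((n : ℝ) * ((u : ℝ) / q + β))‖ ^ 2

end Pool.Agent.H.MP_c90f74_nt.SF
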