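import Pool.Agent.H.MP_c90f74_nt.SF.Core
import Pool.Agent.H.MP_c90f74_nt.SF.Win
import Pool.Agent.H.MP_c90f74_nt.SF.Par
import Pool.Agent.H.MP_c90f74_nt.SF.ParA
import Pool.Agent.H.MP_c90f74_nt.SF.ParB

/-!
# Main: the theorem

PROOF. First `d ≤ 1/2` (else use `1/2`). `I = ⌈1400/d⌉₊`, `C = 24 * 2^I`, `c = 1/(216 * 2^I)`, `par` with `y0` from `win` and `B` large (`B ≥ 4/d`, `B ≥ 8`); `s = ⌊ε logb 2 x⌋₊`, `ζ = (log x)^C`.
`ε L ≥ ε log x ≥ log H / loglog x ≥ 24`, and `m ≤ log H/(6 loglog x) ≤ ε L`. If `ε ≤ 1/7744`: `parA`, `core`, `ε^(m/2) ≤ ε^(c log H/loglog x)`.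
Otherwise `parB` (`m ≤ log H/(6 loglog x) ≤ log x/(6 loglog x) ≤ d L/4` as `loglog x ≥ B ≥ 4/d`), `core` with `r = m`, and
`exp (-m) ≤ ε^(c log H/loglog x)` as `log (1/ε) ≤ log 7744 ≤ 9` and `9 c log H/loglog x ≤ m`.
-/

set_option autoImplicit false

namespace Pool.Agent.H.MP_c90f74_nt.SF

open Finset

private theorem Main_ncard (x H L t s : ℕ) (ζ ε : ℝ) (hst : s + t + 2 = L)
    (hs : ε * Real.logb 2 x < s + 1) :
    ({n : ℕ | x < n ∧ n ≤ x + H ∧ (smallCount ζ n : ℝ) ≤ ε * Real.logb 2 x}.ncard : ℝ) ≤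
      ({n : ℕ | x < n ∧ n ≤ x + H ∧ smallCount ζ n + t + 2 ≤ L}.ncard : ℝ) := by
  have hfin : {n : ℕ | x < n ∧ n ≤ x + H ∧ smallCount ζ n + t + 2 ≤ L}.Finite :=
    (Set.finite_Iic (x + H)).subset fun n hn => hn.2.1
  have hsub : {n : ℕ | x < n ∧ n ≤ x + H ∧ (smallCount ζ n : ℝ) ≤ ε * Real.logb 2 x} ⊆
      {n : ℕ | x < n ∧ n ≤ x + H ∧ smallCount ζ n + t + 2 ≤ L} := by
    rintro n ⟨h1, h2, h3⟩
    refine ⟨h1, h2, ?_⟩
    have h4 : (smallCount ζ n : ℝ) < (s : ℝ) + 1 := lt_of_le_of_lt h3 hs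
    have h5 : smallCount ζ n < s + 1 := by exact_mod_cast h4
    omega
  exact_mod_cast Set.ncard_le_ncard hsub hfin

theorem main_half (d : ℝ) (hd : 0 < d) (hd2 : d ≤ 1 / 2) : ∃ C : ℕ, ∃ c : ℝ, 0 < c ∧ ∃ x₀ : ℕ, ∀ x H : ℕ, x₀ ≤ x →
    Real.log x ^ C ≤ H → H ≤ x → ∀ ε : ℝ, Real.log H / (Real.log x * Real.log (Real.log x)) ≤ ε → ε ≤ 1 - d →
    ({n : ℕ | x < n ∧ n ≤ x + H ∧ (smallCount (Real.log x ^ C) n : ℝ) ≤ ε * Real.logb 2 x}.ncard : ℝ) ≤
      H * ε ^ (c * Real.log H / Real.log (Real.log x)) := by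
  obtain ⟨y0, hy02, hwin⟩ := win
  obtain ⟨I, hI⟩ : ∃ I : ℕ, 1400 / d ≤ I := exists_nat_ge _
  have hdI : 1400 ≤ d * I := by
    rw [div_le_iff₀ hd] at hI
    linarith
  have hI32r : (32 : ℝ) ≤ I := by
    have h1 : d * I ≤ 1 / 2 * I := mul_le_mul_of_nonneg_right hd2 (Nat.cast_nonneg I)
    linarith
  have hI32 : 32 ≤ I := by exact_mod_cast hI32r
  obtain ⟨x₀, hx₀⟩ := par I y0 (4 / d + 8)
  have h2I : (0 : ℝ) < 2 ^ I := by positivity
  refine ⟨24 * 2 ^ I, 1 / (216 * 2 ^ I), by positivity, x₀, ?_⟩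
  intro x H hx hH1 hH2 ε hε1 hε2
  obtain ⟨L, y, m, hL, hy, hy0, hBL, hBl, hll, hm, hzm, hzx, hzζ, hm1, hm2, hxL, hbL, h24⟩ :=
    hx₀ x H hx hH1 hH2
  have h4d : 0 < 4 / d := by positivity
  have hll0 : 0 < Real.log (Real.log x) := by linarith
  have hL0 : (0 : ℝ) < L := by linarith
  have hL8 : (8 : ℝ) ≤ L := by linarith
  have hL8n : 8 ≤ L := by exact_mod_cast hL8
  have hlogx : 0 < Real.log x := by
    by_contra h
    have h1 : Real.log x ≤ 0 := not_lt.1 h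
    rcases Nat.eq_zero_or_pos x with h2 | h2
    · rw [h2, Nat.cast_zero, Real.log_zero, Real.log_zero] at hll
      linarith
    · have h3 : 0 ≤ Real.log x := Real.log_nonneg (by exact_mod_cast h2)
      have h4 : Real.log x = 0 := le_antisymm h1 h3
      rw [h4, Real.log_zero] at hll
      linarith
  have hlogH : 24 * Real.log (Real.log x) ≤ Real.log H := by
    rwa [le_div_iff₀ hll0] at h24
  have hlogH0 : 0 < Real.log H := by linarith
  have hHx : Real.log H ≤ Real.log x := by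
    have hH0 : (0 : ℝ) < H := by
      rcases Nat.eq_zero_or_pos H with h | h
      · rw [h, Nat.cast_zero, Real.log_zero] at hlogH0
        exact absurd hlogH0 (lt_irrefl _)
      · exact_mod_cast h
    exact Real.log_le_log hH0 (by exact_mod_cast hH2)
  have hε0 : 0 < ε := lt_of_lt_of_le (by positivity) hε1
  have hεle : ε ≤ 1 := by linarith
  -- `log H / loglog x ≤ ε log x ≤ ε L`
  have hεx : Real.log H / Real.log (Real.log x) ≤ ε * Real.log x := by
    rw [div_le_iff₀ (by positivity)] at hε1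
    rw [div_le_iff₀ hll0]
    linarith
  have hεL : Real.log H / Real.log (Real.log x) ≤ ε * L :=
    hεx.trans (mul_le_mul_of_nonneg_left hxL hε0.le)
  obtain ⟨s, hs⟩ : ∃ s : ℕ, s = ⌊ε * Real.logb 2 x⌋₊ := ⟨_, rfl⟩
  have hlogb : 0 ≤ Real.logb 2 x := div_nonneg hlogx.le (Real.log_nonneg (by norm_num))
  have hs1 : (s : ℝ) ≤ ε * L := by
    rw [hs]
    exact (Nat.floor_le (mul_nonneg hε0.le hlogb)).trans (mul_le_mul_of_nonneg_left hbL hε0.le)
  have hs2 : ε * Real.logb 2 x < s + 1 := by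
    rw [hs]
    exact Nat.lt_floor_add_one _
  have hyL : L ^ 3 ≤ y := hy.ge
  have hw := hwin y I hy0
  have hζ : Real.log x ^ (24 * 2 ^ I) = Real.log x ^ (24 * 2 ^ I) := rfl
  have hmle : (m : ℝ) ≤ (Real.log H / Real.log (Real.log x)) / 6 := by
    rw [div_div, mul_comm (Real.log (Real.log x)) 6]
    exact hm2
  have hHR : (0 : ℝ) ≤ H := Nat.cast_nonneg H
  have hq0 : 0 ≤ Real.log H / Real.log (Real.log x) := by positivity
  have hmge : Real.log H / Real.log (Real.log x) ≤ 24 * 2 ^ I * m := by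
    have h1 : Real.log H / (24 * 2 ^ I * Real.log (Real.log x)) =
        Real.log H / Real.log (Real.log x) / (24 * 2 ^ I) := by
      rw [div_div, mul_comm (Real.log (Real.log x))]
    rw [h1, div_le_iff₀ (by positivity)] at hm1
    linarith
  have hexp : 1 / (216 * 2 ^ I) * Real.log H / Real.log (Real.log x) ≤ m / 9 := by
    have h1 : 1 / (216 * 2 ^ I) * Real.log H / Real.log (Real.log x) =
        Real.log H / Real.log (Real.log x) / (216 * 2 ^ I) := by
      field_simp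
    rw [h1, div_le_iff₀ (by positivity)]
    calc Real.log H / Real.log (Real.log x) ≤ 24 * 2 ^ I * m := hmge
      _ = _ := by ring
  have hm0 : (0 : ℝ) ≤ m := Nat.cast_nonneg m
  rcases le_or_gt ε (1 / 7744) with hε | hε
  · -- small `ε`
    obtain ⟨r, t, ρ, hst, hmr, hrt, hρ0, hρ, hfin⟩ := parA I L m s ε hI32 hm hε0 hε
      (by linarith) (by linarith) hs1
    have hcore := core x H L y I m r t (Real.log x ^ (24 * 2 ^ I)) ρ hL (by omega) hyL (by omega) hw
      hm hmr hzm hzx hzζ hrt (by omega) hρ0 hρ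
    refine (Main_ncard x H L t s _ ε hst hs2).trans (hcore.trans ?_)
    have h1 : 8 * (H : ℝ) * (16 * m / (r * I)) ^ m * ρ ^ r =
        H * (8 * (16 * (m : ℝ) / (r * I)) ^ m * ρ ^ r) := by ring
    rw [h1]
    refine mul_le_mul_of_nonneg_left (hfin.trans ?_) hHR
    exact Real.rpow_le_rpow_of_exponent_ge hε0 hεle (by linarith)
  · -- `ε ≤ 1 - d`
    have hmd : (m : ℝ) ≤ d * L / 4 := by
      have h1 : 4 / d ≤ Real.log (Real.log x) := by linarith
      have h2 : Real.log H / Real.log (Real.log x) ≤ Real.log x / (4 / d) := by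
        refine div_le_div₀ hlogx.le hHx h4d h1
      have h3 : Real.log x / (4 / d) = Real.log x * d / 4 := by
        field_simp
      have h4 : Real.log x * d ≤ L * d := mul_le_mul_of_nonneg_right hxL hd.le
      rw [h3] at h2
      linarith
    have hdL : 4 ≤ d * L := by
      have h1 : 4 / d ≤ L := by linarith
      rw [div_le_iff₀ hd] at h1
      linarith
    obtain ⟨t, ρ, hst, hmr, hrt, hρ0, hρ, hfin⟩ := parB I L m s ε d hd hd2 hdI hm hdL hε2 hmd hs1
    have hcore := core x H L y I m m t (Real.log x ^ (24 * 2 ^ I)) ρ hL (by omega) hyL (by omega) hw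
      hm hmr hzm hzx hzζ hrt (by omega) hρ0 hρ
    refine (Main_ncard x H L t s _ ε hst hs2).trans (hcore.trans ?_)
    have h1 : 8 * (H : ℝ) * (16 * m / (m * I)) ^ m * ρ ^ m =
        H * (8 * (16 * (m : ℝ) / (m * I)) ^ m * ρ ^ m) := by ring
    rw [h1]
    refine mul_le_mul_of_nonneg_left (hfin.trans ?_) hHR
    rw [Real.rpow_def_of_pos hε0]
    refine Real.exp_le_exp.2 ?_
    have h2 : -9 ≤ Real.log ε := by
      have h3 : Real.log (1 / 7744) ≤ Real.log ε := Real.log_le_log (by norm_num) hε.le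
      have h4 : Real.log 7744 ≤ 9 := by
        rw [Real.log_le_iff_le_exp (by norm_num)]
        have h5 : (2.7182818283 : ℝ) < Real.exp 1 := Real.exp_one_gt_d9
        have h6 : Real.exp 9 = Real.exp 1 ^ 9 := by
          rw [← Real.exp_nat_mul]
          norm_num
        rw [h6]
        calc (7744 : ℝ) ≤ 2.7182818283 ^ 9 := by norm_num
          _ ≤ Real.exp 1 ^ 9 := pow_le_pow_left₀ (by norm_num) h5.le 9
      rw [one_div, Real.log_inv] at h3
      linarith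
    have h3 : 0 ≤ 1 / (216 * 2 ^ I) * Real.log H / Real.log (Real.log x) := by positivity
    nlinarith [mul_le_mul_of_nonneg_right h2 h3]

theorem main (d : ℝ) (hd : 0 < d) : ∃ C : ℕ, ∃ c : ℝ, 0 < c ∧ ∃ x₀ : ℕ, ∀ x H : ℕ, x₀ ≤ x →
    Real.log x ^ C ≤ H → H ≤ x → ∀ ε : ℝ, Real.log H / (Real.log x * Real.log (Real.log x)) ≤ ε → ε ≤ 1 - d →
    ({n : ℕ | x < n ∧ n ≤ x + H ∧ (smallCount (Real.log x ^ C) n : ℝ) ≤ ε * Real.logb 2 x}.ncard : ℝ) ≤
      H * ε ^ (c * Real.log H / Real.log (Real.log x)) := by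
  rcases le_total d (1 / 2) with h | h
  · exact main_half d hd h
  · obtain ⟨C, c, hc, x₀, hx⟩ := main_half (1 / 2) (by norm_num) le_rfl
    refine ⟨C, c, hc, x₀, fun x H h1 h2 h3 ε h4 h5 => hx x H h1 h2 h3 ε h4 (by linarith)⟩

end Pool.Agent.H.MP_c90f74_nt.SF
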