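import Pool.Agent.H.MP_c90f74_nt.SF.Defs
import Pool.Agent.H.MP_711652_nt.CH.Fejer

/-!
# MonA: Montgomery's inequality for one prime

`Z` occupies at most `p - r` classes modulo `p`. PROOF. `∑_{v = 0}^{p-1} |S(v/p + β)|^2 = p ∑_h |S_h(β)|^2`, `S_h` the part of the sum `S(β)` with `n ≡ h`
modulo `p` (orthogonality); Cauchy-Schwarz: `|S(β)|^2 ≤ (p - r) ∑_h |S_h(β)|^2`; subtract the term `v = 0`, which is `|S(β)|^2`.
-/

set_option autoImplicit false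

namespace Pool.Agent.H.MP_c90f74_nt.SF

open Finset

/-- the sum of the `p`-th roots of unity -/
private theorem MonA_orth (p : ℕ) (hp : 0 < p) (m n : ℕ) :
    ∑ v ∈ range p, MP_711652_nt.CH.ee (((m : ℝ) - n) * ((v : ℝ) / p)) =
      if m % p = n % p then (p : ℂ) else 0 := by
  have hp0 : (p : ℝ) ≠ 0 := by exact_mod_cast hp.ne'
  have hpow : ∀ v : ℕ, MP_711652_nt.CH.ee (((m : ℝ) - n) * ((v : ℝ) / p)) =
      MP_711652_nt.CH.ee (((m : ℝ) - n) / p) ^ v := by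
    intro v
    unfold MP_711652_nt.CH.ee
    rw [← Complex.exp_nat_mul]
    congr 1
    push_cast
    ring
  simp_rw [hpow]
  set ω := MP_711652_nt.CH.ee (((m : ℝ) - n) / p) with hω
  have hωp : ω ^ p = 1 := by
    rw [hω, ← hpow p]
    have h1 : ((m : ℝ) - n) * ((p : ℝ) / p) = (((m : ℤ) - n : ℤ) : ℝ) := by
      rw [div_self hp0, mul_one]
      push_cast
      ring
    rw [h1, MP_711652_nt.CH.ee_int]
  by_cases h : m % p = n % p
  · rw [if_pos h]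
    have hω1 : ω = 1 := by
      obtain ⟨k, hk⟩ : (p : ℤ) ∣ (m : ℤ) - n := by
        apply Int.ModEq.dvd
        have : n ≡ m [MOD p] := h.symm
        exact (Int.natCast_modEq_iff.mpr this)
      have h1 : ((m : ℝ) - n) / p = ((k : ℤ) : ℝ) := by
        have h2 : ((m : ℝ) - n) = (p : ℝ) * (k : ℝ) := by exact_mod_cast hk
        rw [h2]
        field_simp
      rw [hω, h1, MP_711652_nt.CH.ee_int]
    rw [hω1]
    simp
  · rw [if_neg h]
    have hω1 : ω ≠ 1 := by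
      intro h1
      apply h
      rw [hω] at h1
      unfold MP_711652_nt.CH.ee at h1
      rw [Complex.exp_eq_one_iff] at h1
      obtain ⟨k, hk⟩ := h1
      have hpi : (2 * Real.pi * Complex.I : ℂ) ≠ 0 := Complex.two_pi_I_ne_zero
      have h2 : (((((m : ℝ) - n) / p : ℝ) : ℂ)) = (k : ℂ) := by
        have h3 : (((((m : ℝ) - n) / p : ℝ) : ℂ)) * (2 * Real.pi * Complex.I) =
            (k : ℂ) * (2 * Real.pi * Complex.I) := by
          rw [← hk]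
          ring
        exact mul_right_cancel₀ hpi h3
      have h4 : ((m : ℝ) - n) / p = (k : ℝ) := by exact_mod_cast h2
      have h5 : ((m : ℝ) - n) = (p : ℝ) * (k : ℝ) := by
        rw [← h4]
        field_simp
      have h6 : (m : ℤ) - n = (p : ℤ) * k := by exact_mod_cast h5
      have h7 : (n : ℤ) ≡ m [ZMOD p] := (Int.modEq_iff_dvd).mpr ⟨k, h6⟩
      exact (Int.natCast_modEq_iff.mp h7).symm
    have h3 : (∑ i ∈ range p, ω ^ i) * (ω - 1) = ω ^ p - 1 := geom_sum_mul _ _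
    rw [hωp, sub_self] at h3
    exact (mul_eq_zero.mp h3).resolve_right (sub_ne_zero.mpr hω1)

private theorem MonA_sq (c : ℂ) : ((‖c‖ ^ 2 : ℝ) : ℂ) = c * (starRingEnd ℂ) c := by
  rw [Complex.mul_conj, Complex.normSq_eq_norm_sq]

/-- Parseval modulo `p` -/
private theorem MonA_pars (Z : Finset ℕ) (p : ℕ) (hp : 0 < p) (β : ℝ) :
    ∑ v ∈ range p, ‖∑ n ∈ Z, MP_711652_nt.CH.ee ((n : ℝ) * ((v : ℝ) / p + β))‖ ^ 2 =
      (p : ℝ) * ∑ h ∈ Z.image (fun n => n % p),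
        ‖∑ n ∈ Z.filter (fun n => n % p = h), MP_711652_nt.CH.ee ((n : ℝ) * β)‖ ^ 2 := by
  have hmain : ∑ v ∈ range p, (((‖∑ n ∈ Z, MP_711652_nt.CH.ee ((n : ℝ) * ((v : ℝ) / p + β))‖ ^ 2 : ℝ)) : ℂ) =
      (p : ℂ) * ∑ h ∈ Z.image (fun n => n % p),
        (((‖∑ n ∈ Z.filter (fun n => n % p = h), MP_711652_nt.CH.ee ((n : ℝ) * β)‖ ^ 2 : ℝ)) : ℂ) := by
    have hL : ∀ v ∈ range p, (((‖∑ n ∈ Z, MP_711652_nt.CH.ee ((n : ℝ) * ((v : ℝ) / p + β))‖ ^ 2 : ℝ)) : ℂ) =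
        ∑ m ∈ Z, ∑ n ∈ Z, MP_711652_nt.CH.ee (((m : ℝ) - n) * β) *
          MP_711652_nt.CH.ee (((m : ℝ) - n) * ((v : ℝ) / p)) := by
      intro v _
      rw [MonA_sq, map_sum, sum_mul_sum]
      refine sum_congr rfl fun m _ => sum_congr rfl fun n _ => ?_
      rw [← MP_711652_nt.CH.ee_neg, ← MP_711652_nt.CH.ee_add, ← MP_711652_nt.CH.ee_add]
      congr 1
      ring
    rw [sum_congr rfl hL, sum_comm]
    have h1 : ∀ m ∈ Z, ∑ v ∈ range p, ∑ n ∈ Z, MP_711652_nt.CH.ee (((m : ℝ) - n) * β) *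
          MP_711652_nt.CH.ee (((m : ℝ) - n) * ((v : ℝ) / p)) =
        ∑ n ∈ Z.filter (fun n => n % p = m % p), (p : ℂ) * MP_711652_nt.CH.ee (((m : ℝ) - n) * β) := by
      intro m _
      rw [sum_comm, sum_filter]
      refine sum_congr rfl fun n _ => ?_
      rw [← mul_sum, MonA_orth p hp m n]
      by_cases h : m % p = n % p
      · rw [if_pos h, if_pos h.symm, mul_comm]
      · rw [if_neg h, if_neg (fun h' => h h'.symm), mul_zero]
    rw [sum_congr rfl h1]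
    rw [← sum_fiberwise_of_maps_to (s := Z) (t := Z.image (fun n => n % p)) (g := fun n => n % p)
      (fun n hn => mem_image_of_mem _ hn), mul_sum]
    refine sum_congr rfl fun h _ => ?_
    rw [MonA_sq, map_sum, sum_mul_sum, mul_sum]
    refine sum_congr rfl fun m hm => ?_
    have hm2 : m % p = h := (mem_filter.mp hm).2
    rw [hm2, mul_sum]
    refine sum_congr rfl fun n _ => ?_
    rw [← MP_711652_nt.CH.ee_neg, ← MP_711652_nt.CH.ee_add]
    congr 2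
    ring
  have h2 : ((∑ v ∈ range p, ‖∑ n ∈ Z, MP_711652_nt.CH.ee ((n : ℝ) * ((v : ℝ) / p + β))‖ ^ 2 : ℝ) : ℂ) =
      (((p : ℝ) * ∑ h ∈ Z.image (fun n => n % p),
        ‖∑ n ∈ Z.filter (fun n => n % p = h), MP_711652_nt.CH.ee ((n : ℝ) * β)‖ ^ 2 : ℝ) : ℂ) := by
    rw [Complex.ofReal_sum, hmain, Complex.ofReal_mul, Complex.ofReal_sum]
    push_cast
    rfl
  exact_mod_cast h2

theorem mon_prime (Z : Finset ℕ) (p r : ℕ) (hp : p.Prime)
    (hr : (Z.image (fun n => n % p)).card + r ≤ p) (β : ℝ) :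
    (r : ℝ) * ‖∑ n ∈ Z, MP_711652_nt.CH.ee ((n : ℝ) * β)‖ ^ 2 ≤
      ((p : ℝ) - r) * ∑ v ∈ Ico 1 p, ‖∑ n ∈ Z, MP_711652_nt.CH.ee ((n : ℝ) * ((v : ℝ) / p + β))‖ ^ 2 := by
  have hp0 : 0 < p := hp.pos
  have hpR : (0 : ℝ) < p := by exact_mod_cast hp0
  set T : ℝ := ∑ v ∈ Ico 1 p, ‖∑ n ∈ Z, MP_711652_nt.CH.ee ((n : ℝ) * ((v : ℝ) / p + β))‖ ^ 2 with hT
  set S0 : ℝ := ‖∑ n ∈ Z, MP_711652_nt.CH.ee ((n : ℝ) * β)‖ ^ 2 with hS0
  set Q : ℝ := ∑ h ∈ Z.image (fun n => n % p),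
        ‖∑ n ∈ Z.filter (fun n => n % p = h), MP_711652_nt.CH.ee ((n : ℝ) * β)‖ ^ 2 with hQ
  have hQ0 : 0 ≤ Q := sum_nonneg fun _ _ => by positivity
  have h1 : S0 + T = (p : ℝ) * Q := by
    rw [← MonA_pars Z p hp0 β, range_eq_Ico, sum_eq_sum_Ico_succ_bot hp0]
    simp [hS0, hT]
  have h2 : S0 ≤ ((p : ℝ) - r) * Q := by
    have h3 : ∑ n ∈ Z, MP_711652_nt.CH.ee ((n : ℝ) * β) =
        ∑ h ∈ Z.image (fun n => n % p), ∑ n ∈ Z.filter (fun n => n % p = h),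
          MP_711652_nt.CH.ee ((n : ℝ) * β) :=
      (sum_fiberwise_of_maps_to (fun n hn => mem_image_of_mem _ hn) _).symm
    have h4 : ‖∑ n ∈ Z, MP_711652_nt.CH.ee ((n : ℝ) * β)‖ ≤
        ∑ h ∈ Z.image (fun n => n % p), ‖∑ n ∈ Z.filter (fun n => n % p = h),
          MP_711652_nt.CH.ee ((n : ℝ) * β)‖ := by
      rw [h3]
      exact norm_sum_le _ _
    have h5 : S0 ≤ ((Z.image (fun n => n % p)).card : ℝ) * Q := by
      refine (pow_le_pow_left₀ (norm_nonneg _) h4 2).trans ?_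
      exact sq_sum_le_card_mul_sum_sq
    have h6 : ((Z.image (fun n => n % p)).card : ℝ) ≤ (p : ℝ) - r := by
      have : (((Z.image (fun n => n % p)).card + r : ℕ) : ℝ) ≤ p := by exact_mod_cast hr
      push_cast at this
      linarith
    exact h5.trans (mul_le_mul_of_nonneg_right h6 hQ0)
  have h7 : (p : ℝ) * S0 ≤ ((p : ℝ) - r) * (S0 + T) := by
    rw [h1]
    calc (p : ℝ) * S0 ≤ (p : ℝ) * (((p : ℝ) - r) * Q) := mul_le_mul_of_nonneg_left h2 hpR.le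
      _ = ((p : ℝ) - r) * ((p : ℝ) * Q) := by ring
  nlinarith [h7]

end Pool.Agent.H.MP_c90f74_nt.SF
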