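import Pool.Agent.H.MP_c90f74_nt.SF.MonA
import Pool.Agent.H.MP_c90f74_nt.SF.MonB

/-!
# MonC: Montgomery's inequality for a product of primes

PROOF. Induction on `T` for all `β` (`Finset.induction_on`). `T = ∅`: `FF Z 1 β` is the term `u = 0`. `insert p T`: `p` does not divide `∏ T` (`Prime.dvd_finset_prod_iff`,
distinct primes), `mon_step`, the induction hypothesis at `v/p + β`, and `mon_prime` divided by `p - r > 0`.
-/

set_option autoImplicit false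

namespace Pool.Agent.H.MP_c90f74_nt.SF

open Finset

theorem mon_prod (Z : Finset ℕ) (r : ℕ) (T : Finset ℕ)
    (hT : ∀ p ∈ T, p.Prime ∧ r < p ∧ (Z.image (fun n => n % p)).card + r ≤ p) (β : ℝ) :
    (∏ p ∈ T, (r : ℝ) / ((p : ℝ) - r)) * ‖∑ n ∈ Z, MP_711652_nt.CH.ee ((n : ℝ) * β)‖ ^ 2 ≤
      FF Z (∏ p ∈ T, p) β := by
  classical
  induction T using Finset.induction_on generalizing β with
  | empty =>
    have h1 : (range 1).filter (fun u => Nat.Coprime u 1) = {0} := by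
      ext u
      simp
    rw [Finset.prod_empty, Finset.prod_empty, one_mul]
    unfold FF
    rw [h1, Finset.sum_singleton, Nat.cast_zero, zero_div, zero_add]
  | insert p T hp ih =>
    obtain ⟨hpp, hrp, hcard⟩ := hT p (Finset.mem_insert_self p T)
    have hT' : ∀ q ∈ T, q.Prime ∧ r < q ∧ (Z.image (fun n => n % q)).card + r ≤ q :=
      fun q hq => hT q (Finset.mem_insert_of_mem hq)
    have hq1 : 1 ≤ ∏ q ∈ T, q :=
      Finset.prod_pos (fun q hq => (hT' q hq).1.pos)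
    have hnd : ¬ p ∣ ∏ q ∈ T, q := by
      intro h
      obtain ⟨a, ha, hpa⟩ := (Prime.dvd_finsetProd_iff hpp.prime (fun q => q)).1 h
      have h1 := (Nat.prime_dvd_prime_iff_eq hpp (hT' a ha).1).1 hpa
      rw [h1] at hp
      exact hp ha
    have hw : 0 ≤ ∏ q ∈ T, (r : ℝ) / ((q : ℝ) - r) := by
      refine Finset.prod_nonneg fun q hq => ?_
      have h1 : (r : ℝ) < q := by exact_mod_cast (hT' q hq).2.1
      exact div_nonneg (Nat.cast_nonneg r) (by linarith)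
    have hrp' : (0 : ℝ) < (p : ℝ) - r := by
      have h1 : (r : ℝ) < p := by exact_mod_cast hrp
      linarith
    have h1 := mon_prime Z p r hpp hcard β
    have h2 : (r : ℝ) / ((p : ℝ) - r) * ‖∑ n ∈ Z, MP_711652_nt.CH.ee ((n : ℝ) * β)‖ ^ 2 ≤
        ∑ v ∈ Ico 1 p, ‖∑ n ∈ Z, MP_711652_nt.CH.ee ((n : ℝ) * ((v : ℝ) / p + β))‖ ^ 2 := by
      rw [div_mul_eq_mul_div, div_le_iff₀ hrp', mul_comm _ ((p : ℝ) - r)]
      exact h1
    have h3 : (∏ q ∈ T, (r : ℝ) / ((q : ℝ) - r)) *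
        ∑ v ∈ Ico 1 p, ‖∑ n ∈ Z, MP_711652_nt.CH.ee ((n : ℝ) * ((v : ℝ) / p + β))‖ ^ 2 ≤
        ∑ v ∈ Ico 1 p, FF Z (∏ q ∈ T, q) ((v : ℝ) / p + β) := by
      rw [Finset.mul_sum]
      exact Finset.sum_le_sum fun v _ => ih hT' ((v : ℝ) / p + β)
    rw [Finset.prod_insert hp, Finset.prod_insert hp]
    calc (r : ℝ) / ((p : ℝ) - r) * (∏ q ∈ T, (r : ℝ) / ((q : ℝ) - r)) *
          ‖∑ n ∈ Z, MP_711652_nt.CH.ee ((n : ℝ) * β)‖ ^ 2 =
        (∏ q ∈ T, (r : ℝ) / ((q : ℝ) - r)) *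
          ((r : ℝ) / ((p : ℝ) - r) * ‖∑ n ∈ Z, MP_711652_nt.CH.ee ((n : ℝ) * β)‖ ^ 2) := by ring
      _ ≤ (∏ q ∈ T, (r : ℝ) / ((q : ℝ) - r)) *
          ∑ v ∈ Ico 1 p, ‖∑ n ∈ Z, MP_711652_nt.CH.ee ((n : ℝ) * ((v : ℝ) / p + β))‖ ^ 2 :=
        mul_le_mul_of_nonneg_left h2 hw
      _ ≤ ∑ v ∈ Ico 1 p, FF Z (∏ q ∈ T, q) ((v : ℝ) / p + β) := h3
      _ ≤ FF Z (p * ∏ q ∈ T, q) β := mon_step Z p _ hpp hq1 hnd β

end Pool.Agent.H.MP_c90f74_nt.SF
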